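import Pool.Agent.Helper60.L1Full.Stmts2
import Pool.Agent.Helper2.DualL1.Gen

/-! MAR: under Martin's axiom `ℓ¹(ω₁)`-systems exist in `Y` if `L¹({0,1}^{ω₁})` embeds in `Y*`. -/

namespace DualL1

open MeasureTheory Cardinal
open scoped ENNReal Classical

universe u v w

/-- functionals on `L¹` are given by densities on real square integrable functions -/
lemma MAR_density {X : Type u} [MeasurableSpace X] (lam : Measure X) [IsProbabilityMeasure lam]
    (𝕜 : Type v) [RCLike 𝕜] (S : Lp 𝕜 1 lam →L[𝕜] 𝕜) :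
    ∃ f : X → ℝ, Measurable f ∧ Integrable f lam ∧ ∀ g : X → ℝ, MemLp g 2 lam →
      RCLike.re (S (tl lam (fun x => ((g x : ℝ) : 𝕜)))) = ∫ x, f x * g x ∂lam := by
  have hint : ∀ g : X → ℝ, MemLp g 2 lam → Integrable (fun x => ((g x : ℝ) : 𝕜)) lam := by
    intro g hg
    exact (hg.integrable (by norm_num)).ofReal
  have hnorm : ∀ g : X → ℝ, MemLp g 2 lam →
      ‖tl lam (fun x => ((g x : ℝ) : 𝕜))‖ ≤ (eLpNorm g 2 lam).toReal := by
    intro g hg
    rw [norm_tl (hint g hg)]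
    have h1 : ∫ x, ‖((g x : ℝ) : 𝕜)‖ ∂lam = (eLpNorm g 1 lam).toReal := by
      rw [eLpNorm_one_eq_lintegral_enorm, ← integral_norm_eq_lintegral_enorm
        hg.aestronglyMeasurable]
      simp
    rw [h1]
    exact ENNReal.toReal_mono hg.eLpNorm_ne_top
      (eLpNorm_le_eLpNorm_of_exponent_le (by norm_num) hg.aestronglyMeasurable)
  let L0 : Lp ℝ 2 lam →ₗ[ℝ] ℝ :=
    { toFun := fun g => RCLike.re (S (tl lam (fun x => ((g x : ℝ) : 𝕜))))
      map_add' := by
        intro g g'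
        have h1 : tl lam (fun x => (((g + g' : Lp ℝ 2 lam) x : ℝ) : 𝕜)) =
            tl lam (fun x => ((g x : ℝ) : 𝕜)) + tl lam (fun x => ((g' x : ℝ) : 𝕜)) := by
          rw [← tl_add' (hint _ (Lp.memLp g)) (hint _ (Lp.memLp g'))]
          refine tl_congr ?_
          filter_upwards [Lp.coeFn_add g g'] with x hx
          rw [hx, Pi.add_apply, RCLike.ofReal_add]
        simp only [h1, map_add]
      map_smul' := by
        intro c g
        have h1 : tl lam (fun x => (((c • g : Lp ℝ 2 lam) x : ℝ) : 𝕜)) =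
            (c : 𝕜) • tl lam (fun x => ((g x : ℝ) : 𝕜)) := by
          rw [← tl_smul _ (hint _ (Lp.memLp g))]
          refine tl_congr ?_
          filter_upwards [Lp.coeFn_smul c g] with x hx
          rw [hx, Pi.smul_apply, smul_eq_mul, RCLike.ofReal_mul]
        simp only [h1, map_smul, smul_eq_mul, RCLike.re_ofReal_mul, RingHom.id_apply] }
  have hL0 : ∀ g, ‖L0 g‖ ≤ ‖S‖ * ‖g‖ := by
    intro g
    calc ‖L0 g‖ ≤ ‖S (tl lam (fun x => ((g x : ℝ) : 𝕜)))‖ := RCLike.norm_re_le_norm _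
      _ ≤ ‖S‖ * ‖tl lam (fun x => ((g x : ℝ) : 𝕜))‖ := S.le_opNorm _
      _ ≤ ‖S‖ * ‖g‖ := by
          rw [Lp.norm_def]
          exact mul_le_mul_of_nonneg_left (hnorm _ (Lp.memLp g)) (norm_nonneg _)
  let L : Lp ℝ 2 lam →L[ℝ] ℝ := L0.mkContinuous ‖S‖ hL0
  set h := (InnerProductSpace.toDual ℝ (Lp ℝ 2 lam)).symm L with hh
  have hL : ∀ g : Lp ℝ 2 lam, L g = ∫ x, h x * g x ∂lam := by
    intro g
    have h1 : inner ℝ h g = L g := by
      rw [hh, InnerProductSpace.toDual_symm_apply]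
    rw [← h1, L2.inner_def]
    refine integral_congr_ae (Filter.Eventually.of_forall (fun x => ?_))
    simp [mul_comm]
  refine ⟨h, (Lp.stronglyMeasurable h).measurable, (Lp.memLp h).integrable (by norm_num),
    fun g hg => ?_⟩
  have h2 := hL (hg.toLp g)
  have h3 : L (hg.toLp g) = RCLike.re (S (tl lam (fun x => ((g x : ℝ) : 𝕜)))) := by
    change RCLike.re (S (tl lam (fun x => (((hg.toLp g : Lp ℝ 2 lam) x : ℝ) : 𝕜)))) = _
    congr 2
    refine tl_congr ?_
    filter_upwards [hg.coeFn_toLp] with x hx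
    rw [hx]
  rw [← h3, h2]
  refine integral_congr_ae ?_
  filter_upwards [hg.coeFn_toLp] with x hx
  rw [hx]

/-- averages over sets -/
lemma MAR_avg {X : Type u} [MeasurableSpace X] (lam : Measure X) [IsProbabilityMeasure lam]
    (f : X → ℝ) (hf : Integrable f lam) (Q : Set X) (hQ : MeasurableSet Q) (hQ0 : 0 < lam Q)
    (s : ℝ) : ((∀ x ∈ Q, s < f x) → s ≤ (lam.real Q)⁻¹ * ∫ x in Q, f x ∂lam) ∧
      ((∀ x ∈ Q, f x < s) → (lam.real Q)⁻¹ * ∫ x in Q, f x ∂lam ≤ s) := by
  have hr : 0 < lam.real Q := ENNReal.toReal_pos hQ0.ne' (measure_ne_top _ _)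
  constructor
  · intro h
    have h1 : s * lam.real Q ≤ ∫ x in Q, f x ∂lam := by
      have h2 : ∫ _ in Q, s ∂lam = s * lam.real Q := by
        rw [setIntegral_const, smul_eq_mul, mul_comm]
      rw [← h2]
      exact setIntegral_mono_on (integrable_const _).integrableOn hf.integrableOn hQ
        (fun x hx => (h x hx).le)
    rw [← div_eq_inv_mul, le_div_iff₀ hr]
    exact h1
  · intro h
    have h1 : ∫ x in Q, f x ∂lam ≤ s * lam.real Q := by
      have h2 : ∫ _ in Q, s ∂lam = s * lam.real Q := by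
        rw [setIntegral_const, smul_eq_mul, mul_comm]
      rw [← h2]
      exact setIntegral_mono_on hf.integrableOn (integrable_const _).integrableOn hQ
        (fun x hx => (h x hx).le)
    rw [← div_eq_inv_mul, div_le_iff₀ hr]
    exact h1

/-- MAR. -/
theorem st_MAR (hMAC : ST_MAC.{u}) (hHB : ST_HB.{u, v, w}) : ST_MAR.{u, v, w} := by
  intro hMA 𝕜 _ I Y _ _ T c hc hT hI
  let lam : Measure (I → Bool) := coinPi I
  let w : I → (I → Bool) → ℝ := fun i x => if x i = true then 1 else -1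
  have hwm : ∀ i, Measurable (w i) := fun i =>
    (measurable_from_top (f := fun b : Bool => (if b = true then 1 else -1 : ℝ))).comp
      (measurable_pi_apply i)
  have hw1 : ∀ i x, ‖w i x‖ = 1 := by
    intro i x
    simp only [w]
    split_ifs <;> simp
  have hw2 : ∀ i, MemLp (w i) 2 lam := fun i =>
    MemLp.of_bound (hwm i).aestronglyMeasurable 1 (Filter.Eventually.of_forall
      (fun x => (hw1 i x).le))
  have hwi : ∀ i, Integrable (fun x => ((w i x : ℝ) : 𝕜)) lam := fun i =>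
    ((hw2 i).integrable (by norm_num)).ofReal
  have hwn : ∀ i, ‖tl lam (fun x => ((w i x : ℝ) : 𝕜))‖ = 1 := by
    intro i
    rw [norm_tl (hwi i)]
    have : ∀ x, ‖((w i x : ℝ) : 𝕜)‖ = 1 := fun x => by
      rw [RCLike.norm_ofReal, ← Real.norm_eq_abs, hw1]
    simp [this]
  -- the test vectors
  have hy : ∀ i, ∃ y : Y, ‖y‖ ≤ 1 ∧ 0 < RCLike.re (T (tl lam (fun x => ((w i x : ℝ) : 𝕜))) y) := by
    intro i
    have h1 : c ≤ ‖T (tl lam (fun x => ((w i x : ℝ) : 𝕜)))‖ := by
      have := hT (tl lam (fun x => ((w i x : ℝ) : 𝕜)))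
      rwa [hwn, mul_one] at this
    set Φ := T (tl lam (fun x => ((w i x : ℝ) : 𝕜))) with hΦ
    have hne : Φ ≠ 0 := by
      intro h0
      rw [h0, norm_zero] at h1
      linarith
    obtain ⟨y, hy⟩ : ∃ y, Φ y ≠ 0 := by
      by_contra hcon
      push Not at hcon
      exact hne (ContinuousLinearMap.ext hcon)
    have hy0 : y ≠ 0 := by
      rintro rfl
      exact hy (map_zero _)
    have hny : 0 < ‖y‖ := norm_pos_iff.2 hy0
    obtain ⟨a, ha, ha'⟩ := RCLike.exists_norm_eq_mul_self (Φ y)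
    refine ⟨(a * ((‖y‖⁻¹ : ℝ) : 𝕜)) • y, ?_, ?_⟩
    · rw [norm_smul, norm_mul, ha, one_mul, RCLike.norm_ofReal, abs_of_pos (inv_pos.2 hny),
        inv_mul_cancel₀ hny.ne']
    · rw [map_smul, smul_eq_mul]
      have : a * ((‖y‖⁻¹ : ℝ) : 𝕜) * Φ y = ((‖y‖⁻¹ * ‖Φ y‖ : ℝ) : 𝕜) := by
        rw [RCLike.ofReal_mul, ha']
        ring
      rw [this, RCLike.ofReal_re]
      exact mul_pos (inv_pos.2 hny) (norm_pos_iff.2 hy)
  choose y hy1 hy2 using hy
  -- the densities
  have hf : ∀ i, ∃ f : (I → Bool) → ℝ, Measurable f ∧ Integrable f lam ∧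
      ∀ g : (I → Bool) → ℝ, MemLp g 2 lam →
      RCLike.re (T (tl lam (fun x => ((g x : ℝ) : 𝕜))) (y i)) = ∫ x, f x * g x ∂lam := by
    intro i
    obtain ⟨f, hf1, hf2, hf3⟩ := MAR_density lam 𝕜
      ((ContinuousLinearMap.apply 𝕜 𝕜 (y i)).comp T)
    exact ⟨f, hf1, hf2, fun g hg => hf3 g hg⟩
  choose f hf1 hf2 hf3 using hf
  obtain ⟨r, s, Γ, hrs, hΓ, hind⟩ := hMAC hMA I hI f hf1 hf2 (fun i => by
    rw [← hf3 i (w i) (hw2 i)]
    exact hy2 i)
  -- the lower estimate on `Γ`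
  set δ : ℝ := (s - r) / (2 * (‖T‖ + 1)) with hδ
  have hTp : 0 < ‖T‖ + 1 := by positivity
  have hδ0 : 0 < δ := div_pos (sub_pos.2 hrs) (by positivity)
  have key : ∀ (F : Finset Γ) (a : Γ → ℝ), δ * ∑ i ∈ F, |a i| ≤
      ‖∑ i ∈ F, ((a i : ℝ) : 𝕜) • y i.1‖ := by
    intro F a
    let F' : Finset I := F.map (Function.Embedding.subtype _)
    have hF' : ∀ i ∈ F', i ∈ Γ := by
      intro i hi
      obtain ⟨j, -, rfl⟩ := Finset.mem_map.1 hi
      exact j.2
    let ε : I → Bool := fun i => if h : i ∈ Γ then decide (0 ≤ a ⟨i, h⟩) else true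
    let Q : (I → Bool) → Set (I → Bool) := fun e =>
      {x | ∀ i ∈ F', if e i = true then s < f i x else f i x < r}
    have hQ0 : ∀ e, 0 < lam (Q e) := fun e => hind F' hF' e
    have hQm : ∀ e, MeasurableSet (Q e) := by
      intro e
      have : Q e = ⋂ i ∈ F', {x | if e i = true then s < f i x else f i x < r} := by
        ext x
        simp [Q]
      rw [this]
      refine Finset.measurableSet_biInter _ (fun i _ => ?_)
      by_cases h : e i = true
      · simp only [h, if_true]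
        exact measurableSet_lt measurable_const (hf1 i)
      · simp only [h, Bool.false_eq_true, if_false]
        exact measurableSet_lt (hf1 i) measurable_const
    -- the test functions
    let g : (I → Bool) → (I → Bool) → ℝ := fun e x => (lam.real (Q e))⁻¹ * (Q e).indicator 1 x
    have hgm : ∀ e, MemLp (g e) 2 lam := by
      intro e
      have h1 : MemLp ((Q e).indicator (1 : (I → Bool) → ℝ)) 2 lam :=
        memLp_indicator_const 2 (hQm e) (1 : ℝ) (Or.inr (measure_ne_top _ _))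
      exact h1.const_mul _
    have hgi : ∀ e, Integrable (fun x => ((g e x : ℝ) : 𝕜)) lam := fun e =>
      ((hgm e).integrable (by norm_num)).ofReal
    have hgn : ∀ e, ‖tl lam (fun x => ((g e x : ℝ) : 𝕜))‖ = 1 := by
      intro e
      have hr : 0 < lam.real (Q e) := ENNReal.toReal_pos (hQ0 e).ne' (measure_ne_top _ _)
      rw [norm_tl (hgi e)]
      have h1 : ∀ x, ‖((g e x : ℝ) : 𝕜)‖ = (lam.real (Q e))⁻¹ * (Q e).indicator 1 x := by
        intro x
        rw [RCLike.norm_ofReal, abs_of_nonneg]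
        exact mul_nonneg (inv_nonneg.2 hr.le) (Set.indicator_nonneg (fun _ _ => zero_le_one) _)
      simp only [h1]
      rw [integral_const_mul, integral_indicator_one (hQm e), inv_mul_cancel₀ hr.ne']
    have hval : ∀ e i, RCLike.re (T (tl lam (fun x => ((g e x : ℝ) : 𝕜))) (y i)) =
        (lam.real (Q e))⁻¹ * ∫ x in Q e, f i x ∂lam := by
      intro e i
      rw [hf3 i (g e) (hgm e), ← integral_indicator (hQm e), ← integral_const_mul]
      refine integral_congr_ae (Filter.Eventually.of_forall (fun x => ?_))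
      by_cases hx : x ∈ Q e
      · simp [g, hx, mul_comm]
      · simp [g, hx]
    have hpos : ∀ e, ∀ i ∈ F', e i = true →
        s ≤ RCLike.re (T (tl lam (fun x => ((g e x : ℝ) : 𝕜))) (y i)) := by
      intro e i hi he
      rw [hval]
      refine (MAR_avg lam (f i) (hf2 i) (Q e) (hQm e) (hQ0 e) s).1 (fun x hx => ?_)
      have := hx i hi
      rwa [if_pos he] at this
    have hneg : ∀ e, ∀ i ∈ F', e i = false →
        RCLike.re (T (tl lam (fun x => ((g e x : ℝ) : 𝕜))) (y i)) ≤ r := by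
      intro e i hi he
      rw [hval]
      refine (MAR_avg lam (f i) (hf2 i) (Q e) (hQm e) (hQ0 e) r).2 (fun x hx => ?_)
      have := hx i hi
      rwa [if_neg (by simp [he])] at this
    let ε' : I → Bool := fun i => !(ε i)
    set t : Lp 𝕜 1 lam := tl lam (fun x => ((g ε x : ℝ) : 𝕜)) -
      tl lam (fun x => ((g ε' x : ℝ) : 𝕜)) with ht
    have htn : ‖t‖ ≤ 2 := by
      refine (norm_sub_le _ _).trans ?_
      rw [hgn, hgn]
      norm_num
    have hti : ∀ i ∈ F, (s - r) * |a i| ≤ a i * RCLike.re (T t (y i.1)) := by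
      intro i hi
      have hi' : i.1 ∈ F' := Finset.mem_map.2 ⟨i, hi, rfl⟩
      have h1 : RCLike.re (T t (y i.1)) =
          RCLike.re (T (tl lam (fun x => ((g ε x : ℝ) : 𝕜))) (y i.1)) -
          RCLike.re (T (tl lam (fun x => ((g ε' x : ℝ) : 𝕜))) (y i.1)) := by
        rw [ht, map_sub, _root_.sub_apply, map_sub]
      have hεi : ε i.1 = decide (0 ≤ a i) := by
        simp [ε, i.2]
      rw [h1]
      by_cases ha : 0 ≤ a i
      · have e1 : ε i.1 = true := by rw [hεi]; simpa using ha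
        have e2 : ε' i.1 = false := by simp [ε', e1]
        have h2 := hpos ε i.1 hi' e1
        have h3 := hneg ε' i.1 hi' e2
        rw [abs_of_nonneg ha, mul_comm]
        exact mul_le_mul_of_nonneg_left (by linarith) ha
      · have e1 : ε i.1 = false := by rw [hεi]; simpa using ha
        have e2 : ε' i.1 = true := by simp [ε', e1]
        have h2 := hneg ε i.1 hi' e1
        have h3 := hpos ε' i.1 hi' e2
        have ha' : a i < 0 := not_le.1 ha
        rw [abs_of_neg ha']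
        nlinarith
    have h1 : (s - r) * ∑ i ∈ F, |a i| ≤ 2 * ‖T‖ * ‖∑ i ∈ F, ((a i : ℝ) : 𝕜) • y i.1‖ := by
      calc (s - r) * ∑ i ∈ F, |a i| = ∑ i ∈ F, (s - r) * |a i| := Finset.mul_sum _ _ _
        _ ≤ ∑ i ∈ F, a i * RCLike.re (T t (y i.1)) := Finset.sum_le_sum hti
        _ = RCLike.re (T t (∑ i ∈ F, ((a i : ℝ) : 𝕜) • y i.1)) := by
            rw [map_sum, map_sum]
            refine Finset.sum_congr rfl (fun i _ => ?_)
            rw [map_smul, smul_eq_mul, RCLike.re_ofReal_mul]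
        _ ≤ ‖T t (∑ i ∈ F, ((a i : ℝ) : 𝕜) • y i.1)‖ := RCLike.re_le_norm _
        _ ≤ ‖T t‖ * ‖∑ i ∈ F, ((a i : ℝ) : 𝕜) • y i.1‖ := (T t).le_opNorm _
        _ ≤ (‖T‖ * ‖t‖) * ‖∑ i ∈ F, ((a i : ℝ) : 𝕜) • y i.1‖ := by
            gcongr
            exact T.le_opNorm t
        _ ≤ (‖T‖ * 2) * ‖∑ i ∈ F, ((a i : ℝ) : 𝕜) • y i.1‖ := by gcongr
        _ = 2 * ‖T‖ * ‖∑ i ∈ F, ((a i : ℝ) : 𝕜) • y i.1‖ := by ring
    rw [hδ, div_mul_eq_mul_div, div_le_iff₀ (by positivity)]
    refine h1.trans ?_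
    rw [mul_comm]
    gcongr
    linarith
  obtain ⟨C, z, hz1, hz2⟩ := hHB 𝕜 Γ Y δ (fun i => y i.1) hδ0 (fun i => hy1 i.1) key
  have hcard : #I = #Γ := by rw [hI, hΓ]
  obtain ⟨e⟩ := Cardinal.eq.1 hcard
  refine ⟨C, fun i => z (e i), fun i => hz1 _, fun θ => ?_⟩
  obtain ⟨ζ, hζ1, hζ2⟩ := hz2 (fun j => θ (e.symm j))
  refine ⟨ζ, hζ1, fun i => ?_⟩
  have := hζ2 (e i)
  simpa using this

end DualL1
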