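import Pool.Agent.Helper60.L1Full.Stmts

/-! COIN: the coin measure on `{0,1}^I` is `#I`-thick. -/

namespace DualL1

open MeasureTheory Cardinal
open scoped ENNReal Classical

universe u

/-- measurable sets depend on countably many coordinates -/
lemma COIN_dep {I : Type u} (G : Set (I → Bool)) (hG : MeasurableSet G) :
    ∃ J : Set I, J.Countable ∧ ∀ x y : I → Bool, (∀ j ∈ J, x j = y j) → (x ∈ G → y ∈ G) := by
  let m : MeasurableSpace (I → Bool) :=
    { MeasurableSet' := fun G => ∃ J : Set I, J.Countable ∧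
        ∀ x y : I → Bool, (∀ j ∈ J, x j = y j) → (x ∈ G → y ∈ G)
      measurableSet_empty := ⟨∅, Set.countable_empty, fun x y _ h => h⟩
      measurableSet_compl := by
        rintro G ⟨J, hJ, h⟩
        exact ⟨J, hJ, fun x y hxy hx hy => hx (h y x (fun j hj => (hxy j hj).symm) hy)⟩
      measurableSet_iUnion := by
        intro f hf
        choose J hJ h using hf
        refine ⟨⋃ n, J n, Set.countable_iUnion hJ, fun x y hxy hx => ?_⟩
        obtain ⟨n, hn⟩ := Set.mem_iUnion.1 hx
        exact Set.mem_iUnion.2 ⟨n, h n x y (fun j hj => hxy j (Set.mem_iUnion.2 ⟨n, hj⟩)) hn⟩ }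
  have hle : (MeasurableSpace.pi : MeasurableSpace (I → Bool)) ≤ m := by
    refine iSup_le (fun i => ?_)
    rintro G ⟨s, -, rfl⟩
    refine ⟨{i}, Set.countable_singleton i, fun x y hxy hx => ?_⟩
    have := hxy i rfl
    simp only [Set.mem_preimage] at hx ⊢
    rwa [← this]
  exact hle G hG

lemma COIN_map_not : coin.map not = coin := by
  refine Measure.ext_of_singleton (fun b => ?_)
  have hm : Measurable not := measurable_from_top
  rw [Measure.map_apply hm (measurableSet_singleton b)]
  cases b <;> simp [coin]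

/-- the flip of a coordinate -/
noncomputable def COIN_flip {I : Type u} (i : I) : (I → Bool) → (I → Bool) :=
  fun x j => if j = i then !(x j) else x j

lemma COIN_flip_map {I : Type u} (i : I) : (coinPi I).map (COIN_flip i) = coinPi I := by
  unfold coinPi
  have h := Measure.infinitePi_map_pi (μ := fun _ : I => coin)
    (f := fun j : I => if j = i then not else id) (fun j => by
      by_cases h : j = i <;> simp [h] <;> exact measurable_from_top)
  have h1 : (fun (x : I → Bool) (j : I) => (if j = i then not else id) (x j)) = COIN_flip i := by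
    funext x j
    by_cases h : j = i <;> simp [COIN_flip, h]
  rw [h1] at h
  rw [h]
  congr 1
  funext j
  by_cases h : j = i
  · simp [h, COIN_map_not]
  · simp [h]

lemma COIN_flip_meas {I : Type u} (i : I) : Measurable (COIN_flip i) := by
  refine measurable_pi_iff.2 (fun j => ?_)
  by_cases h : j = i
  · have : (fun x : I → Bool => COIN_flip i x j) = fun x => !(x j) := by
      funext x; simp [COIN_flip, h]
    rw [this]
    exact (measurable_from_top (f := not)).comp (measurable_pi_apply j)
  · have : (fun x : I → Bool => COIN_flip i x j) = fun x => x j := by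
      funext x; simp [COIN_flip, h]
    rw [this]
    exact measurable_pi_apply j

/-- no atoms -/
lemma COIN_atomless {I : Type u} [Infinite I] (a : Set (I → Bool)) : ¬ IsAtomOf (coinPi I) a := by
  rintro ⟨ham, ha0, ha⟩
  have h1 : ∀ i : I, ∃ t : Bool, coinPi I (a ∩ {x | x i ≠ t}) = 0 := by
    intro i
    have hm : MeasurableSet {x : I → Bool | x i = true} :=
      measurable_pi_apply i (measurableSet_singleton _)
    rcases ha (a ∩ {x | x i = true}) Set.inter_subset_left (ham.inter hm) with h | h
    · refine ⟨false, measure_mono_null ?_ h⟩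
      rintro x ⟨hx, hx2⟩
      exact ⟨hx, by simpa using hx2⟩
    · refine ⟨true, measure_mono_null ?_ h⟩
      rintro x ⟨hx, hx2⟩
      exact ⟨hx, fun h => hx2 h.2⟩
  choose t ht using h1
  have h2 : ∀ S : Finset I, coinPi I a ≤ (2⁻¹ : ℝ≥0∞) ^ S.card := by
    intro S
    have h3 : coinPi I a ≤ coinPi I ((S : Set I).pi (fun i => {t i})) := by
      have h4 : coinPi I (⋃ i ∈ S, a ∩ {x | x i ≠ t i}) = 0 := by
        exact (measure_biUnion_null_iff S.countable_toSet).2 (fun i _ => ht i)
      calc coinPi I a ≤ coinPi I (((S : Set I).pi (fun i => {t i})) ∪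
            ⋃ i ∈ S, a ∩ {x | x i ≠ t i}) := by
              refine measure_mono (fun x hx => ?_)
              by_cases h : ∀ i ∈ S, x i = t i
              · exact Or.inl (fun i hi => h i hi)
              · push Not at h
                obtain ⟨i, hi, hne⟩ := h
                exact Or.inr (Set.mem_biUnion hi ⟨hx, hne⟩)
        _ ≤ coinPi I ((S : Set I).pi (fun i => {t i})) +
            coinPi I (⋃ i ∈ S, a ∩ {x | x i ≠ t i}) := measure_union_le _ _
        _ = coinPi I ((S : Set I).pi (fun i => {t i})) := by rw [h4, add_zero]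
    refine h3.trans (le_of_eq ?_)
    unfold coinPi
    rw [Measure.infinitePi_pi _ (fun i _ => measurableSet_singleton _)]
    have : ∀ i ∈ S, coin {t i} = 2⁻¹ := by
      intro i _
      cases t i <;> simp [coin]
    rw [Finset.prod_congr rfl this, Finset.prod_const]
  have h3 : ∀ n : ℕ, coinPi I a ≤ (2⁻¹ : ℝ≥0∞) ^ n := by
    intro n
    obtain ⟨S, hS⟩ := Infinite.exists_subset_card_eq I n
    rw [← hS]
    exact h2 S
  have h4 : coinPi I a ≤ 0 := by
    refine ge_of_tendsto' (ENNReal.tendsto_pow_atTop_nhds_zero_of_lt_one ?_) h3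
    exact ENNReal.inv_lt_one.2 (by norm_num)
  exact absurd ha0 (not_lt.2 h4)

/-- COIN. -/
theorem st_COIN (hF : ST_FINGEN.{u}) : ST_COIN.{u} := by
  intro I _
  refine ⟨MeasurableSet.univ, by simp, by simp, fun B _ hB hB0 𝒢 h𝒢 hlt hgen => ?_⟩
  by_cases hfin : 𝒢.Finite
  · obtain ⟨a, -, ha⟩ := hF (coinPi I) B 𝒢 hB hB0 (measure_ne_top _ _) h𝒢 hfin hgen
    exact COIN_atomless a ha
  · have hinf : ℵ₀ ≤ #𝒢 := by
      rw [← not_lt, Cardinal.lt_aleph0_iff_set_finite]
      exact hfin
    -- countable supports
    have hch : ∀ G : 𝒢, ∃ J : Set I, J.Countable ∧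
        ∀ x y : I → Bool, (∀ j ∈ J, x j = y j) → (x ∈ G.1 → y ∈ G.1) :=
      fun G => COIN_dep G.1 (h𝒢 G.1 G.2)
    choose J hJc hJ using hch
    obtain ⟨JB, hJBc, hJB⟩ := COIN_dep B hB
    have hcard : #(↥(JB ∪ ⋃ G, J G)) < #I := by
      refine (mk_union_le _ _).trans_lt ?_
      have h1 : #JB ≤ ℵ₀ := Cardinal.le_aleph0_iff_set_countable.2 hJBc
      have h2 : #(↥(⋃ G, J G)) ≤ #𝒢 * ℵ₀ := by
        refine (mk_iUnion_le _).trans ?_
        gcongr
        exact ciSup_le' (fun G => Cardinal.le_aleph0_iff_set_countable.2 (hJc G))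
      have h3 : #𝒢 * ℵ₀ = #𝒢 := mul_eq_left hinf hinf aleph0_ne_zero
      rw [h3] at h2
      exact Cardinal.add_lt_of_lt (Cardinal.aleph0_le_mk I) ((h1.trans hinf).trans_lt hlt)
        (h2.trans_lt hlt)
    obtain ⟨i, hi⟩ : ∃ i, i ∉ JB ∪ ⋃ G, J G := by
      by_contra hcon
      push Not at hcon
      have : JB ∪ ⋃ G, J G = Set.univ := Set.eq_univ_of_forall hcon
      rw [this, mk_univ] at hcard
      exact lt_irrefl _ hcard
    have hiB : i ∉ JB := fun h => hi (Or.inl h)
    have hiG : ∀ G, i ∉ J G := fun G h => hi (Or.inr (Set.mem_iUnion.2 ⟨G, h⟩))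
    have hflip : ∀ (x : I → Bool) (j : I), j ≠ i → COIN_flip i x j = x j := by
      intro x j hj
      simp [COIN_flip, hj]
    have hff : ∀ x : I → Bool, COIN_flip i (COIN_flip i x) = x := by
      intro x
      funext j
      by_cases h : j = i <;> simp [COIN_flip, h]
    have hBinv : ∀ x, x ∈ B → COIN_flip i x ∈ B := fun x hx =>
      hJB x _ (fun j hj => (hflip x j (fun h => hiB (h ▸ hj))).symm) hx
    have hGinv : ∀ G, MeasurableSet[MeasurableSpace.generateFrom 𝒢] G →
        ∀ x, x ∈ G → COIN_flip i x ∈ G := by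
      let m : MeasurableSpace (I → Bool) :=
        { MeasurableSet' := fun G => ∀ x, x ∈ G → COIN_flip i x ∈ G
          measurableSet_empty := fun x hx => hx
          measurableSet_compl := by
            intro G hG x hx hfx
            refine hx ?_
            have := hG _ hfx
            rwa [hff] at this
          measurableSet_iUnion := by
            intro f hf x hx
            obtain ⟨n, hn⟩ := Set.mem_iUnion.1 hx
            exact Set.mem_iUnion.2 ⟨n, hf n x hn⟩ }
      have hle : MeasurableSpace.generateFrom 𝒢 ≤ m := by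
        refine MeasurableSpace.generateFrom_le (fun G hG x hx => ?_)
        exact hJ ⟨G, hG⟩ x _ (fun j hj => (hflip x j (fun h => hiG ⟨G, hG⟩ (h ▸ hj))).symm) hx
      intro G hG
      exact hle G hG
    have hi1 : MeasurableSet {x : I → Bool | x i = true} :=
      measurable_pi_apply i (measurableSet_singleton _)
    obtain ⟨G, hG, hEG⟩ := hgen (B ∩ {x | x i = true}) Set.inter_subset_left (hB.inter hi1)
    have hnull : ∀ s : Set (I → Bool), coinPi I s = 0 → coinPi I (COIN_flip i ⁻¹' s) = 0 := by
      intro s hs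
      have hq : Measure.QuasiMeasurePreserving (COIN_flip i) (coinPi I) (coinPi I) :=
        ⟨COIN_flip_meas i, by rw [COIN_flip_map]⟩
      exact hq.preimage_null hs
    have h1 : coinPi I ((G ∩ B) ∩ {x | x i = false}) = 0 := by
      refine measure_mono_null ?_ hEG
      rintro x ⟨hx, hxi⟩
      refine Or.inr ⟨hx, fun h => ?_⟩
      have h2 : x i = true := h.2
      have h3 : x i = false := hxi
      rw [h3] at h2
      exact Bool.false_ne_true h2
    have h2 : coinPi I ((G ∩ B) ∩ {x | x i = true}) = 0 := by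
      refine measure_mono_null ?_ (hnull _ h1)
      rintro x ⟨hx, hxi⟩
      refine ⟨⟨hGinv G hG x hx.1, hBinv x hx.2⟩, ?_⟩
      have : x i = true := hxi
      simp [COIN_flip, this]
    have h3 : coinPi I (B ∩ {x | x i = true}) = 0 := by
      have : coinPi I (symmDiff (B ∩ {x | x i = true}) (G ∩ B) ∪
          ((G ∩ B) ∩ {x | x i = true})) = 0 := measure_union_null hEG h2
      refine measure_mono_null ?_ this
      intro x hx
      by_cases hxG : x ∈ G
      · exact Or.inr ⟨⟨hxG, hx.1⟩, hx.2⟩
      · exact Or.inl (Or.inl ⟨hx, fun h => hxG h.1⟩)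
    have h4 : coinPi I (B ∩ {x | x i = false}) = 0 := by
      refine measure_mono_null ?_ (hnull _ h3)
      rintro x ⟨hx, hxi⟩
      refine ⟨hBinv x hx, ?_⟩
      have : x i = false := hxi
      simp [COIN_flip, this]
    have h5 : coinPi I B = 0 := by
      refine measure_mono_null ?_ (measure_union_null h3 h4)
      intro x hx
      cases hxi : x i
      · exact Or.inr ⟨hx, hxi⟩
      · exact Or.inl ⟨hx, hxi⟩
    exact hB0.ne' h5

end DualL1
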