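import Pool.Agent.Helper60.L1Full.Stmts

/-! FINGEN: a set generated by finitely many sets contains an atom. -/

namespace DualL1

open MeasureTheory Cardinal
open scoped ENNReal Classical

universe u

/-- FINGEN. -/
theorem st_FINGEN : ST_FINGEN.{u} := by
  intro Ω _ μ B 𝒢 hB hB0 hBf h𝒢 hfin hgen
  have : Finite 𝒢 := hfin
  let c : Ω → (𝒢 → Bool) := fun x G => decide (x ∈ G.1)
  have hc : Measurable c := by
    refine measurable_pi_iff.2 (fun G => measurable_to_bool ?_)
    have : (fun x => c x G) ⁻¹' {true} = G.1 := by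
      ext x
      simp [c]
    rw [this]
    exact h𝒢 G.1 G.2
  have hle : MeasurableSpace.generateFrom 𝒢 ≤ MeasurableSpace.comap c ⊤ := by
    refine MeasurableSpace.generateFrom_le (fun G hG => ?_)
    refine ⟨{p | p ⟨G, hG⟩ = true}, trivial, ?_⟩
    ext x
    simp [c]
  obtain ⟨p, hp⟩ : ∃ p : 𝒢 → Bool, μ (B ∩ c ⁻¹' {p}) ≠ 0 := by
    by_contra hcon
    push Not at hcon
    have h1 : μ (⋃ p, B ∩ c ⁻¹' {p}) = 0 := measure_iUnion_null hcon
    have h2 : (⋃ p, B ∩ c ⁻¹' {p}) = B := by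
      ext x
      simp
    rw [h2] at h1
    exact hB0.ne' h1
  refine ⟨B ∩ c ⁻¹' {p}, Set.inter_subset_left, hB.inter (hc (measurableSet_singleton p)),
    pos_iff_ne_zero.2 hp, fun E hE hEm => ?_⟩
  obtain ⟨G, hG, hEG⟩ := hgen E (hE.trans Set.inter_subset_left) hEm
  obtain ⟨s, -, rfl⟩ := hle G hG
  by_cases hps : p ∈ s
  · right
    refine measure_mono_null ?_ hEG
    rintro x ⟨⟨hxB, hxp⟩, hxE⟩
    refine Or.inr ⟨⟨?_, hxB⟩, hxE⟩
    have : c x = p := hxp
    simpa [this] using hps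
  · left
    refine measure_mono_null ?_ hEG
    intro x hx
    refine Or.inl ⟨hx, fun hx' => hps ?_⟩
    have : c x = p := (hE hx).2
    have h3 : c x ∈ s := hx'.1
    rwa [this] at h3

end DualL1
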