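import Pool.Agent.Helper60.L1Full.Stmts2
import Pool.Agent.Helper96.L1F.COIN

/-! KUNT: the image of the coin measure under Kunen's map has uncountable type everywhere. -/

namespace DualL1

open MeasureTheory Cardinal
open scoped ENNReal Classical

universe u

lemma KUNT_Iio (i : W1.{u}) : (Set.Iio i).Countable := by
  rw [← Cardinal.le_aleph0_iff_set_countable, ← Cardinal.lt_aleph_one_iff]
  have h := Cardinal.mk_Iio_lt i (by simp)
  rwa [Cardinal.mk_ord_toType] at h

lemma KUNT_bdd (J : Set W1.{u}) (hJ : J.Countable) : ∃ i, ∀ j ∈ J, j < i := by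
  by_contra hcon
  push Not at hcon
  have h1 : (Set.univ : Set W1.{u}) ⊆ ⋃ j ∈ J, Set.Iic j := by
    intro i _
    obtain ⟨j, hj, hij⟩ := hcon i
    exact Set.mem_biUnion hj hij
  have h2 : (⋃ j ∈ J, Set.Iic j).Countable := by
    refine hJ.biUnion (fun j _ => ?_)
    have : Set.Iic j = insert j (Set.Iio j) := by
      ext x
      simp [le_iff_eq_or_lt]
    rw [this]
    exact (KUNT_Iio j).insert j
  have h3 : (Set.univ : Set W1.{u}).Countable := h2.mono h1
  rw [← Cardinal.le_aleph0_iff_set_countable, mk_univ, Cardinal.mk_ord_toType] at h3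
  exact absurd h3 (not_le.2 Cardinal.aleph0_lt_aleph_one)

variable (F : W1.{u} → Set (W1.{u} → Bool))

lemma KUNT_eq (hdep : ∀ i, ∀ x y : W1.{u} → Bool, (∀ j < i, x j = y j) → (x ∈ F i ↔ y ∈ F i))
    (u : W1.{u} → Bool) (i : W1.{u}) : kx F u i = (u i && decide (kx F u ∈ F i)) := by
  rw [kx_eq]
  congr 2
  rw [eq_iff_iff]
  exact hdep i _ _ (fun j hj => by simp [hj])

lemma KUNT_flip (u : W1.{u} → Bool) (i : W1.{u}) :
    ∀ j, j < i → kx F (COIN_flip i u) j = kx F u j := by
  intro j
  induction j using (wellFounded_lt : WellFounded (fun a b : W1.{u} => a < b)).induction with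
  | _ j ih =>
    intro hj
    rw [kx_eq, kx_eq]
    have h1 : COIN_flip i u j = u j := by simp [COIN_flip, hj.ne]
    rw [h1]
    have h2 : (fun k => if k < j then kx F (COIN_flip i u) k else false) =
        (fun k => if k < j then kx F u k else false) := by
      funext k
      by_cases hk : k < j
      · simp only [hk, if_true]
        exact ih k hk (hk.trans hj)
      · simp [hk]
    rw [h2]

lemma KUNT_half (hK : Measurable (kx F)) (hF : ∀ i, MeasurableSet (F i))
    (hdep : ∀ i, ∀ x y : W1.{u} → Bool, (∀ j < i, x j = y j) → (x ∈ F i ↔ y ∈ F i))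
    (i : W1.{u}) (H : Set (W1.{u} → Bool)) (hHm : MeasurableSet H)
    (hH : ∀ x y : W1.{u} → Bool, (∀ j < i, x j = y j) → (x ∈ H → y ∈ H)) :
    2 * ((coinPi W1.{u}).map (kx F)) (H ∩ {x | x i = true}) =
      ((coinPi W1.{u}).map (kx F)) (H ∩ F i) := by
  have hi1 : MeasurableSet {x : W1.{u} → Bool | x i = true} :=
    measurable_pi_apply i (measurableSet_singleton _)
  rw [Measure.map_apply hK (hHm.inter hi1), Measure.map_apply hK (hHm.inter (hF i))]
  set A : Set (W1.{u} → Bool) := kx F ⁻¹' (H ∩ F i) with hA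
  have hAm : MeasurableSet A := hK (hHm.inter (hF i))
  have hflip : ∀ u, u ∈ A → COIN_flip i u ∈ A := by
    rintro u ⟨h1, h2⟩
    refine ⟨hH _ _ (fun j hj => (KUNT_flip F u i j hj).symm) h1, ?_⟩
    exact (hdep i _ _ (fun j hj => (KUNT_flip F u i j hj).symm)).1 h2
  have hff : ∀ x : W1.{u} → Bool, COIN_flip i (COIN_flip i x) = x := by
    intro x
    funext j
    by_cases h : j = i <;> simp [COIN_flip, h]
  have e1 : kx F ⁻¹' (H ∩ {x | x i = true}) = A ∩ {u | u i = true} := by
    ext u
    have h := KUNT_eq F hdep u i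
    constructor
    · rintro ⟨h1, h2⟩
      have h2' : kx F u i = true := h2
      rw [h, Bool.and_eq_true, decide_eq_true_eq] at h2'
      exact ⟨⟨h1, h2'.2⟩, h2'.1⟩
    · rintro ⟨⟨h1, h2⟩, h3⟩
      refine ⟨h1, ?_⟩
      change kx F u i = true
      rw [h, Bool.and_eq_true, decide_eq_true_eq]
      exact ⟨h3, h2⟩
  rw [e1]
  have e2 : coinPi W1.{u} (A ∩ {u | u i = true}) = coinPi W1.{u} (A ∩ {u | u i = false}) := by
    have h1 : coinPi W1.{u} (A ∩ {u | u i = true}) =
        coinPi W1.{u} (COIN_flip i ⁻¹' (A ∩ {u | u i = true})) := by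
      conv_lhs => rw [← COIN_flip_map i]
      rw [Measure.map_apply (COIN_flip_meas i) (hAm.inter hi1)]
    rw [h1]
    congr 1
    ext u
    constructor
    · rintro ⟨h2, h3⟩
      refine ⟨?_, ?_⟩
      · have := hflip _ h2
        rwa [hff] at this
      · have h3' : COIN_flip i u i = true := h3
        simpa [COIN_flip] using h3'
    · rintro ⟨h2, h3⟩
      refine ⟨hflip _ h2, ?_⟩
      have h3' : u i = false := h3
      change COIN_flip i u i = true
      simp [COIN_flip, h3']
  rw [two_mul]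
  nth_rewrite 2 [e2]
  have e3 : A ∩ {u | u i = false} = A \ {u | u i = true} := by
    ext u
    simp only [Set.mem_inter_iff, Set.mem_ofPred_eq, Set.mem_sdiff, Bool.not_eq_true]
  rw [e3]
  exact measure_inter_add_sdiff A hi1

/-- closed sets depending on countably many coordinates are measurable -/
lemma KUNT_meas {I : Type u} (G : Set (I → Bool)) (hG : IsClosed G) (J : Set I)
    (hJ : J.Countable) (hdep : ∀ x y : I → Bool, (∀ j ∈ J, x j = y j) → (x ∈ G → y ∈ G)) :
    MeasurableSet G := by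
  have : Countable J := hJ
  let r : (I → Bool) → (J → Bool) := fun x j => x j.1
  let e : (J → Bool) → (I → Bool) := fun y i => if h : i ∈ J then y ⟨i, h⟩ else false
  have hr : Measurable r := measurable_pi_iff.2 (fun j => measurable_pi_apply j.1)
  have he : Continuous e := by
    refine continuous_pi (fun i => ?_)
    by_cases h : i ∈ J
    · simp only [e, h, dif_pos]
      exact continuous_apply _
    · simp only [e, h, dif_neg, not_false_eq_true]
      exact continuous_const
  have h1 : MeasurableSet (e ⁻¹' G) := (hG.preimage he).measurableSet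
  have h2 : G = r ⁻¹' (e ⁻¹' G) := by
    ext x
    have hx : ∀ j ∈ J, e (r x) j = x j := by
      intro j hj
      simp [e, r, hj]
    constructor
    · intro h
      exact hdep x _ (fun j hj => (hx j hj).symm) h
    · intro h
      exact hdep _ x hx h
  rw [h2]
  exact hr h1

/-- KUNT. -/
theorem st_KUNT (hKM : ST_KUNM.{u}) : ST_KUNT.{u} := by
  intro F hF
  have hK : Measurable (kx F) := hKM F hF.closed hF.dep
  have hFm : ∀ i, MeasurableSet (F i) := fun i =>
    KUNT_meas (F i) (hF.closed i) (Set.Iio i) (KUNT_Iio i)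
      (fun x y hxy hx => (hF.dep i x y hxy).1 hx)
  have hprob : IsProbabilityMeasure ((coinPi W1.{u}).map (kx F)) :=
    Measure.isProbabilityMeasure_map hK.aemeasurable
  refine ⟨MeasurableSet.univ, by simp, by simp, fun B _ hB hB0 𝒢 h𝒢 hlt hgen => ?_⟩
  set ν := (coinPi W1.{u}).map (kx F) with hν
  have hc𝒢 : 𝒢.Countable := by
    rwa [← Cardinal.le_aleph0_iff_set_countable, ← Cardinal.lt_aleph_one_iff]
  have : Countable 𝒢 := hc𝒢
  have hch : ∀ G : 𝒢, ∃ J : Set W1.{u}, J.Countable ∧
      ∀ x y : W1.{u} → Bool, (∀ j ∈ J, x j = y j) → (x ∈ G.1 → y ∈ G.1) :=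
    fun G => COIN_dep G.1 (h𝒢 G.1 G.2)
  choose J hJc hJ using hch
  obtain ⟨JB, hJBc, hJB⟩ := COIN_dep B hB
  obtain ⟨i₀, hi₀⟩ := KUNT_bdd (JB ∪ ⋃ G, J G) (hJBc.union (Set.countable_iUnion hJc))
  obtain ⟨i, hi, hlarge⟩ := hF.large i₀ (ν B) hB0
  have hBi : ∀ x y : W1.{u} → Bool, (∀ j < i, x j = y j) → (x ∈ B → y ∈ B) := fun x y hxy =>
    hJB x y (fun j hj => hxy j ((hi₀ j (Or.inl hj)).trans_le hi))
  -- the generated sets depend on coordinates below `i`
  have hGdep : ∀ G, MeasurableSet[MeasurableSpace.generateFrom 𝒢] G →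
      ∀ x y : W1.{u} → Bool, (∀ j < i, x j = y j) → (x ∈ G → y ∈ G) := by
    let m : MeasurableSpace (W1.{u} → Bool) :=
      { MeasurableSet' := fun G => ∀ x y : W1.{u} → Bool, (∀ j < i, x j = y j) → (x ∈ G → y ∈ G)
        measurableSet_empty := fun x y _ h => h
        measurableSet_compl := by
          intro G hG x y hxy hx hy
          exact hx (hG y x (fun j hj => (hxy j hj).symm) hy)
        measurableSet_iUnion := by
          intro f hf x y hxy hx
          obtain ⟨n, hn⟩ := Set.mem_iUnion.1 hx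
          exact Set.mem_iUnion.2 ⟨n, hf n x y hxy hn⟩ }
    have hle : MeasurableSpace.generateFrom 𝒢 ≤ m := by
      refine MeasurableSpace.generateFrom_le (fun G hG x y hxy => ?_)
      exact hJ ⟨G, hG⟩ x y (fun j hj => hxy j
        ((hi₀ j (Or.inr (Set.mem_iUnion.2 ⟨⟨G, hG⟩, hj⟩))).trans_le hi))
    intro G hG
    exact hle G hG
  have hi1 : MeasurableSet {x : W1.{u} → Bool | x i = true} :=
    measurable_pi_apply i (measurableSet_singleton _)
  obtain ⟨G, hG, hEG⟩ := hgen (B ∩ {x | x i = true}) Set.inter_subset_left (hB.inter hi1)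
  have hGm : MeasurableSet G := MeasurableSpace.generateFrom_le h𝒢 G hG
  have h1 := KUNT_half F hK hFm hF.dep i (G ∩ B) (hGm.inter hB) (fun x y hxy hx =>
    ⟨hGdep G hG x y hxy hx.1, hBi x y hxy hx.2⟩)
  have h2 : ν ((G ∩ B) ∩ {x | x i = true}) = ν (G ∩ B) := by
    refine le_antisymm (measure_mono Set.inter_subset_left) ?_
    calc ν (G ∩ B) ≤ ν (((G ∩ B) ∩ {x | x i = true}) ∪
          symmDiff (B ∩ {x | x i = true}) (G ∩ B)) := by
            refine measure_mono (fun x hx => ?_)
            by_cases hxi : x ∈ {x : W1.{u} → Bool | x i = true}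
            · exact Or.inl ⟨hx, hxi⟩
            · exact Or.inr (Or.inr ⟨hx, fun h => hxi h.2⟩)
      _ ≤ ν ((G ∩ B) ∩ {x | x i = true}) + ν (symmDiff (B ∩ {x | x i = true}) (G ∩ B)) :=
          measure_union_le _ _
      _ = ν ((G ∩ B) ∩ {x | x i = true}) := by rw [hEG, add_zero]
  have h3 : ν (G ∩ B) = 0 := by
    rw [h2] at h1
    have h4 : 2 * ν (G ∩ B) ≤ ν (G ∩ B) := by
      rw [h1]
      exact measure_mono Set.inter_subset_left
    by_contra hne
    rw [two_mul] at h4
    exact absurd h4 (not_le.2 (ENNReal.lt_add_right (measure_ne_top _ _) hne))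
  have h4 : ν (B ∩ {x | x i = true}) = 0 := by
    refine measure_mono_null ?_ (measure_union_null h3 hEG)
    intro x hx
    by_cases hxG : x ∈ G
    · exact Or.inl ⟨hxG, hx.1⟩
    · exact Or.inr (Or.inl ⟨hx, fun h => hxG h.1⟩)
  have h5 := KUNT_half F hK hFm hF.dep i B hB hBi
  rw [← hν, h4, mul_zero] at h5
  have h6 : ν B ≤ ν (F i)ᶜ := by
    calc ν B ≤ ν ((B ∩ F i) ∪ (F i)ᶜ) := by
          refine measure_mono (fun x hx => ?_)
          by_cases hxF : x ∈ F i
          · exact Or.inl ⟨hx, hxF⟩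
          · exact Or.inr hxF
      _ ≤ ν (B ∩ F i) + ν (F i)ᶜ := measure_union_le _ _
      _ = ν (F i)ᶜ := by rw [← h5, zero_add]
  have h7 : ν (F i)ᶜ = coinPi W1.{u} {u | kx F u ∉ F i} := by
    rw [hν, Measure.map_apply hK (hFm i).compl]
    rfl
  rw [h7] at h6
  exact absurd hlarge (not_lt.2 h6)

end DualL1
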