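import Pool.Agent.Helper60.L1Full.Stmts

/-! EMB: embedding of `L¹(ν)` into `L¹` of a thick set. -/

namespace DualL1

open MeasureTheory Cardinal
open scoped ENNReal Classical

universe u v

/-- EMB. -/
theorem st_EMB (hM : ST_MAPS.{u}) (hP : ST_PULL.{u, v}) : ST_EMB.{u, v} := by
  intro 𝕜 _ Ω _ μ κ B hκ hB I hI ν hν
  obtain ⟨φ, hφ, hmap⟩ := hM μ κ B hκ hB I hI ν hν
  have hf : IsFiniteMeasure (μ.restrict B) := ⟨by
    rw [Measure.restrict_apply_univ]; exact lt_top_iff_ne_top.2 hB.2.2.1⟩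
  exact hP 𝕜 (μ.restrict B) ν (μ B) φ hf hB.2.1.ne' hB.2.2.1 hφ hmap

end DualL1
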