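import Pool.Agent.Helper60.L1Full.Stmts

/-! HOM: existence of maximal families of atoms and homogeneous sets. -/

namespace DualL1

open MeasureTheory Cardinal
open scoped ENNReal Classical

universe u

lemma HOM_exists (hF : ST_FINGEN.{u}) {Ω : Type u} [MeasurableSpace Ω] (μ : Measure Ω)
    (E : Set Ω) (hE : MeasurableSet E) (hE0 : 0 < μ E) (hEf : μ E ≠ ∞) :
    ∃ A ⊆ E, (IsAtomOf μ A ∧ μ A ≠ ∞) ∨ ∃ κ, ℵ₀ ≤ κ ∧ Hom μ κ A := by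
  let K : Set Cardinal.{u} := {κ | ∃ B ⊆ E, MeasurableSet B ∧ 0 < μ B ∧
    ∃ 𝒢 : Set (Set Ω), (∀ G ∈ 𝒢, MeasurableSet G) ∧ #𝒢 = κ ∧ Generates μ 𝒢 B}
  have hK : K.Nonempty := by
    refine ⟨#{G : Set Ω | MeasurableSet G}, E, subset_rfl, hE, hE0, {G | MeasurableSet G},
      fun G hG => hG, rfl, fun F hFE hF => ⟨F, MeasurableSpace.measurableSet_generateFrom hF, ?_⟩⟩
    rw [Set.inter_eq_left.2 hFE]
    simp
  have hmem : sInf K ∈ K := csInf_mem hK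
  obtain ⟨B, hBE, hBm, hB0, 𝒢, h𝒢, hcard, hgen⟩ := hmem
  have hBf : μ B ≠ ∞ := ne_top_of_le_ne_top hEf (measure_mono hBE)
  by_cases hκ : sInf K < ℵ₀
  · have hfin : 𝒢.Finite := by
      rw [← hcard] at hκ
      exact Cardinal.lt_aleph0_iff_set_finite.1 hκ
    obtain ⟨a, haB, ha⟩ := hF μ B 𝒢 hBm hB0 hBf h𝒢 hfin hgen
    exact ⟨a, haB.trans hBE, Or.inl ⟨ha, ne_top_of_le_ne_top hBf (measure_mono haB)⟩⟩
  · rw [not_lt] at hκ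
    refine ⟨B, hBE, Or.inr ⟨sInf K, hκ, ⟨hBm, hB0, hBf, fun C hCB hCm hC0 𝒢' h𝒢' hlt hg => ?_⟩,
      𝒢, h𝒢, hcard.le, hgen⟩⟩
    have : #𝒢' ∈ K := ⟨C, hCB.trans hBE, hCm, hC0, 𝒢', h𝒢', rfl, hg⟩
    exact absurd (csInf_le' this) (not_le.2 hlt)

lemma HOM_meas {Ω : Type u} [MeasurableSpace Ω] (μ : Measure Ω) {A : Set Ω}
    (h : (IsAtomOf μ A ∧ μ A ≠ ∞) ∨ ∃ κ, ℵ₀ ≤ κ ∧ Hom μ κ A) : μ A ≠ 0 := by
  rcases h with h | ⟨κ, -, h⟩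
  · exact h.1.2.1.ne'
  · exact h.1.2.1.ne'

/-- HOM. -/
theorem st_HOM (hF : ST_FINGEN.{u}) : ST_HOM.{u} := by
  intro Ω _ μ
  let S : Set (Set (Set Ω)) := {𝒟 | (∀ A ∈ 𝒟, (IsAtomOf μ A ∧ μ A ≠ ∞) ∨
    ∃ κ, ℵ₀ ≤ κ ∧ Hom μ κ A) ∧ 𝒟.Pairwise (fun A B => μ (A ∩ B) = 0)}
  obtain ⟨𝒟, hmax⟩ := zorn_subset S (by
    intro c hcS hc
    refine ⟨⋃₀ c, ⟨fun A hA => ?_, ?_⟩, fun s hs => Set.subset_sUnion_of_mem hs⟩
    · obtain ⟨s, hs, hAs⟩ := hA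
      exact (hcS hs).1 A hAs
    · rw [Set.pairwise_sUnion hc.directedOn]
      exact fun s hs => (hcS hs).2)
  have hmem : 𝒟 ∈ S := hmax.prop
  refine ⟨𝒟, hmem.1, hmem.2, fun B hB hB0 hBf => ?_⟩
  by_contra hcon
  push Not at hcon
  obtain ⟨A, hAB, hA⟩ := HOM_exists hF μ B hB hB0 hBf
  have hA0 : μ A ≠ 0 := HOM_meas μ hA
  have hins : insert A 𝒟 ∈ S := by
    refine ⟨fun C hC => ?_, ?_⟩
    · rcases hC with rfl | hC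
      · exact hA
      · exact hmem.1 C hC
    · refine hmem.2.insert (fun C hC _ => ⟨?_, ?_⟩)
      · refine measure_mono_null ?_ (hcon C hC)
        exact fun x hx => ⟨hx.2, hAB hx.1⟩
      · refine measure_mono_null ?_ (hcon C hC)
        exact fun x hx => ⟨hx.1, hAB hx.2⟩
  have hle := hmax.le_of_ge hins (Set.subset_insert A 𝒟)
  have hAD : A ∈ 𝒟 := hle (Set.mem_insert A 𝒟)
  have := hcon A hAD
  rw [Set.inter_eq_left.2 hAB] at this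
  exact hA0 this

end DualL1
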