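import Pool.Agent.Helper60.L1Full.Stmts

/-! MAPS: every probability measure on `{0,1}^I` is the distribution of a measurable map on a thick
set. -/

namespace DualL1

open MeasureTheory Cardinal
open scoped ENNReal Classical

universe u

section

/-- finite patterns determine finite measures on `{0,1}^J` -/
lemma MAPS_ext {J : Type u} (ρ σ : Measure (J → Bool)) [IsFiniteMeasure ρ]
    (h : ∀ (S : Finset J) (t : J → Bool),
      ρ {x | ∀ j ∈ S, x j = t j} = σ {x | ∀ j ∈ S, x j = t j}) : ρ = σ := by
  have key : ∀ S : Finset J, σ.map S.restrict = ρ.map S.restrict := by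
    intro S
    refine Measure.ext_of_singleton (fun y => ?_)
    have hm : Measurable (S.restrict : (J → Bool) → (S → Bool)) := by
      exact Finset.measurable_restrict S
    rw [Measure.map_apply hm (measurableSet_singleton y),
      Measure.map_apply hm (measurableSet_singleton y)]
    have he : (S.restrict : (J → Bool) → (S → Bool)) ⁻¹' {y} =
        {x | ∀ j ∈ S, x j = (fun j => if hj : j ∈ S then y ⟨j, hj⟩ else false) j} := by
      ext x
      simp only [Set.mem_preimage, Set.mem_singleton_iff, Set.mem_ofPred_eq]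
      constructor
      · intro hx j hj
        have := congrFun hx ⟨j, hj⟩
        simpa [hj] using this
      · intro hx
        funext j
        have := hx j.1 j.2
        simpa [j.2] using this
    rw [he, h]
  exact IsProjectiveLimit.unique (P := fun S => ρ.map S.restrict) (fun S => rfl) key

/-- a well-founded recursion principle -/
lemma MAPS_fix {I : Type*} {α : Type*} [LinearOrder I] [WellFoundedLT I]
    (P : I → (I → α) → α → Prop)
    (hcongr : ∀ i c c' s, (∀ j, j < i → c j = c' j) → P i c s → P i c' s)
    (H : ∀ i c, (∀ j, j < i → P j c (c j)) → ∃ s, P i c s) (a0 : α) :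
    ∃ b : I → α, ∀ i, P i b (b i) := by
  have wf : WellFounded ((· < ·) : I → I → Prop) := wellFounded_lt
  let G : ∀ i, (∀ j, j < i → α) → α := fun i ih =>
    if h : ∃ s, P i (fun j => if h : j < i then ih j h else a0) s then Classical.choose h else a0
  refine ⟨wf.fix G, fun i => ?_⟩
  induction i using wf.induction with
  | _ i IH =>
    set b := wf.fix G with hb
    let c : I → α := fun j => if j < i then b j else a0
    have hc : ∀ j, j < i → c j = b j := fun j hj => by simp [c, hj]
    have hP : ∀ j, j < i → P j c (c j) := by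
      intro j hj
      rw [hc j hj]
      exact hcongr j b c (b j) (fun k hk => (hc k (hk.trans hj)).symm) (IH j hj)
    have hex : ∃ s, P i c s := H i c hP
    have hfix : b i = G i (fun j _ => b j) := wf.fix_eq G i
    have hGi : G i (fun j _ => b j) = Classical.choose hex := by
      simp only [G]
      have hex' : ∃ s, P i (fun j => if h : j < i then b j else a0) s := hex
      rw [dif_pos hex']
    rw [hfix, hGi]
    exact hcongr i c b _ hc (Classical.choose_spec hex)

variable {Ω : Type u} [MeasurableSpace Ω]

/-- the coding map of a family of sets -/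
noncomputable def MAPS_code {I : Type u} (c : I → Set Ω) : Ω → (I → Bool) :=
  fun x j => decide (x ∈ c j)

/-- the condition on the `i`-th set -/
def MAPS_P (μ : Measure Ω) (B : Set Ω) {I : Type u} [LinearOrder I] (ν : Measure (I → Bool))
    (i : I) (c : I → Set Ω) (b : Set Ω) : Prop :=
  b ⊆ B ∧ MeasurableSet b ∧ ∀ C : Set ({j // j < i} → Bool), MeasurableSet C →
    μ (b ∩ {x | (fun j : {j // j < i} => MAPS_code c x j.1) ∈ C}) =
      μ B * ν {x | (fun j : {j // j < i} => x j.1) ∈ C ∧ x i = true}

lemma MAPS_P_congr (μ : Measure Ω) (B : Set Ω) {I : Type u} [LinearOrder I]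
    (ν : Measure (I → Bool)) (i : I) (c c' : I → Set Ω) (s : Set Ω)
    (h : ∀ j, j < i → c j = c' j) (hP : MAPS_P μ B ν i c s) : MAPS_P μ B ν i c' s := by
  refine ⟨hP.1, hP.2.1, fun C hC => ?_⟩
  rw [← hP.2.2 C hC]
  have : ∀ x, (fun j : {j // j < i} => MAPS_code c' x j.1) =
      (fun j : {j // j < i} => MAPS_code c x j.1) := by
    intro x
    funext j
    simp only [MAPS_code, h j.1 j.2]
  simp only [this]

lemma MAPS_cyl (μ : Measure Ω) (B : Set Ω) (hBf : μ B ≠ ∞) {I : Type u}
    [LinearOrder I]
    (ν : Measure (I → Bool)) [IsProbabilityMeasure ν] (c : I → Set Ω) (S : Finset I)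
    (hS : ∀ j ∈ S, MAPS_P μ B ν j c (c j)) (t : I → Bool) :
    μ (B ∩ {x | ∀ j ∈ S, MAPS_code c x j = t j}) = μ B * ν {x | ∀ j ∈ S, x j = t j} := by
  induction S using Finset.induction_on_max with
  | empty => simp
  | insert k S hk ih =>
    have ih' := ih (fun j hj => hS j (Finset.mem_insert_of_mem hj))
    obtain ⟨hkB, hkm, hkC⟩ := hS k (Finset.mem_insert_self _ _)
    have hSm : ∀ j ∈ S, MeasurableSet (c j) := fun j hj =>
      (hS j (Finset.mem_insert_of_mem hj)).2.1
    -- the pattern in the smaller space
    let C : Set ({j // j < k} → Bool) := {y | ∀ j : {j // j < k}, j.1 ∈ S → y j = t j.1}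
    have hCm : MeasurableSet C := by
      have : C = ⋂ j ∈ (S.subtype (fun j => j < k) : Finset {j // j < k}),
          {y | y j = t j.1} := by
        ext y
        simp only [C, Set.mem_ofPred_eq, Set.mem_iInter, Finset.mem_subtype]
      rw [this]
      refine Finset.measurableSet_biInter _ (fun j _ => ?_)
      exact measurable_pi_apply j (measurableSet_singleton _)
    have h1 := hkC C hCm
    have e1 : ∀ y : I → Bool, ((fun j : {j // j < k} => y j.1) ∈ C ↔ ∀ j ∈ S, y j = t j) := by
      intro y
      simp only [C, Set.mem_ofPred_eq]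
      constructor
      · intro h j hj
        exact h ⟨j, hk j hj⟩ hj
      · intro h j hj
        exact h j.1 hj
    simp only [e1] at h1
    have hDm : MeasurableSet {x | ∀ j ∈ S, MAPS_code c x j = t j} := by
      have : {x | ∀ j ∈ S, MAPS_code c x j = t j} = ⋂ j ∈ S, {x | MAPS_code c x j = t j} := by
        ext x
        simp
      rw [this]
      refine Finset.measurableSet_biInter _ (fun j hj => ?_)
      by_cases ht : t j = true
      · have : {x | MAPS_code c x j = t j} = c j := by
          ext x
          simp [MAPS_code, ht]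
        rw [this]
        exact hSm j hj
      · have ht' : t j = false := by simpa using ht
        have : {x | MAPS_code c x j = t j} = (c j)ᶜ := by
          ext x
          simp [MAPS_code, ht']
        rw [this]
        exact (hSm j hj).compl
    have hEm : MeasurableSet {x : I → Bool | ∀ j ∈ S, x j = t j} := by
      have : {x : I → Bool | ∀ j ∈ S, x j = t j} = ⋂ j ∈ S, {x | x j = t j} := by
        ext x
        simp
      rw [this]
      refine Finset.measurableSet_biInter _ (fun j hj => ?_)
      exact measurable_pi_apply j (measurableSet_singleton _)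
    have hkt : MeasurableSet {x : I → Bool | x k = true} :=
      measurable_pi_apply k (measurableSet_singleton _)
    by_cases ht : t k = true
    · have e2 : B ∩ {x | ∀ j ∈ insert k S, MAPS_code c x j = t j} =
          c k ∩ {x | ∀ j ∈ S, MAPS_code c x j = t j} := by
        ext x
        simp only [Finset.mem_insert, forall_eq_or_imp, Set.mem_inter_iff, Set.mem_ofPred_eq, ht]
        constructor
        · rintro ⟨_, h2, h3⟩
          exact ⟨by simpa [MAPS_code] using h2, h3⟩
        · rintro ⟨h2, h3⟩
          exact ⟨hkB h2, by simpa [MAPS_code] using h2, h3⟩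
      have e3 : {x : I → Bool | ∀ j ∈ insert k S, x j = t j} =
          {x | (∀ j ∈ S, x j = t j) ∧ x k = true} := by
        ext x
        simp only [Finset.mem_insert, forall_eq_or_imp, Set.mem_ofPred_eq, ht]
        tauto
      rw [e2, e3, h1]
    · have ht' : t k = false := by simpa using ht
      have e2 : B ∩ {x | ∀ j ∈ insert k S, MAPS_code c x j = t j} =
          (B ∩ {x | ∀ j ∈ S, MAPS_code c x j = t j}) \
            (c k ∩ {x | ∀ j ∈ S, MAPS_code c x j = t j}) := by
        ext x
        simp only [Finset.mem_insert, forall_eq_or_imp, Set.mem_inter_iff, Set.mem_ofPred_eq, ht',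
          Set.mem_sdiff, MAPS_code, decide_eq_false_iff_not]
        tauto
      have e3 : {x : I → Bool | ∀ j ∈ insert k S, x j = t j} =
          {x | ∀ j ∈ S, x j = t j} \ {x | (∀ j ∈ S, x j = t j) ∧ x k = true} := by
        ext x
        simp only [Finset.mem_insert, forall_eq_or_imp, Set.mem_ofPred_eq, ht', Set.mem_sdiff,
          not_and, Bool.not_eq_true]
        tauto
      rw [e2, e3, measure_sdiff, measure_sdiff, ih', h1, ENNReal.mul_sub]
      · intro _ _
        exact hBf
      · intro x hx
        exact hx.1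
      · have : {x : I → Bool | (∀ j ∈ S, x j = t j) ∧ x k = true} =
            {x | ∀ j ∈ S, x j = t j} ∩ {x | x k = true} := rfl
        rw [this]
        exact (hEm.inter hkt).nullMeasurableSet
      · exact measure_ne_top _ _
      · intro x hx
        exact ⟨hkB hx.1, hx.2⟩
      · exact (hkm.inter hDm).nullMeasurableSet
      · exact ne_top_of_le_ne_top hBf (measure_mono (fun x hx => hkB hx.1))

/-- the distribution of the initial part of the coding map -/
lemma MAPS_law (μ : Measure Ω) (B : Set Ω) (hBf : μ B ≠ ∞) {I : Type u}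
    [LinearOrder I] (ν : Measure (I → Bool)) [IsProbabilityMeasure ν] (c : I → Set Ω)
    {J : Type u} (e : J → I) (he : Function.Injective e)
    (hP : ∀ j, MAPS_P μ B ν (e j) c (c (e j))) :
    Measurable (fun x => (fun j : J => MAPS_code c x (e j))) ∧
    (μ.restrict B).map (fun x => (fun j : J => MAPS_code c x (e j))) =
      μ B • ν.map (fun y : I → Bool => (fun j : J => y (e j))) := by
  have hcode : Measurable (fun x => (fun j : J => MAPS_code c x (e j))) := by
    refine measurable_pi_iff.2 (fun j => ?_)
    refine measurable_to_bool ?_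
    have : (fun x => MAPS_code c x (e j)) ⁻¹' {true} = c (e j) := by
      ext x
      simp [MAPS_code]
    rw [this]
    exact (hP j).2.1
  have hres : Measurable (fun y : I → Bool => (fun j : J => y (e j))) :=
    measurable_pi_iff.2 (fun j => measurable_pi_apply (e j))
  refine ⟨hcode, ?_⟩
  have : IsFiniteMeasure (μ.restrict B) := ⟨by
    rw [Measure.restrict_apply_univ]; exact lt_top_iff_ne_top.2 hBf⟩
  refine MAPS_ext _ _ (fun S t => ?_)
  have hSm : MeasurableSet {x : J → Bool | ∀ j ∈ S, x j = t j} := by
    have : {x : J → Bool | ∀ j ∈ S, x j = t j} = ⋂ j ∈ S, {x | x j = t j} := by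
      ext x
      simp
    rw [this]
    refine Finset.measurableSet_biInter _ (fun j hj => ?_)
    exact measurable_pi_apply j (measurableSet_singleton _)
  rw [Measure.map_apply hcode hSm, Measure.restrict_apply (hcode hSm), Measure.smul_apply,
    Measure.map_apply hres hSm]
  let t' : I → Bool := fun i => if h : ∃ j, e j = i then t (Classical.choose h) else false
  have ht' : ∀ j, t' (e j) = t j := by
    intro j
    have h : ∃ j', e j' = e j := ⟨j, rfl⟩
    simp only [t']
    rw [dif_pos h]
    congr 1
    exact he (Classical.choose_spec h)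
  have h1 := MAPS_cyl μ B hBf ν c (S.image e) (by
    intro i hi
    obtain ⟨j, -, rfl⟩ := Finset.mem_image.1 hi
    exact hP j) t'
  have e1 : ∀ y : I → Bool, (∀ i ∈ S.image e, y i = t' i) ↔ ∀ j ∈ S, y (e j) = t j := by
    intro y
    simp only [Finset.mem_image, forall_exists_index, and_imp, forall_apply_eq_imp_iff₂, ht']
  simp only [e1] at h1
  rw [smul_eq_mul]
  rw [Set.inter_comm]
  exact h1

/-- the inductive step -/
lemma MAPS_step (hR : ST_REAL.{u}) (μ : Measure Ω) (κ : Cardinal.{u}) (B : Set Ω)
    (hB : Thick μ κ B) {I : Type u} [LinearOrder I]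
    (hI : ∀ i : I, #{j // j < i} < κ) (ν : Measure (I → Bool)) [IsProbabilityMeasure ν]
    (i : I) (c : I → Set Ω) (hP : ∀ j, j < i → MAPS_P μ B ν j c (c j)) :
    ∃ s, MAPS_P μ B ν i c s := by
  obtain ⟨hBm, hB0, hBf, hBt⟩ := hB
  let J := {j // j < i}
  let e : J → I := fun j => j.1
  let φ : Ω → (J → Bool) := fun x => (fun j : J => MAPS_code c x j.1)
  let R : (I → Bool) → (J → Bool) := fun y => (fun j : J => y j.1)
  obtain ⟨hφ, hlaw⟩ := MAPS_law μ B hBf ν c e Subtype.val_injective (fun j => hP j.1 j.2)
  have hRm : Measurable R := measurable_pi_iff.2 (fun j => measurable_pi_apply j.1)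
  have hit : MeasurableSet {x : I → Bool | x i = true} :=
    measurable_pi_apply i (measurableSet_singleton _)
  -- the density
  let ν₁ : Measure (J → Bool) := ν.map R
  let ν₂ : Measure (J → Bool) := (ν.restrict {x | x i = true}).map R
  have : IsProbabilityMeasure ν₁ := Measure.isProbabilityMeasure_map hRm.aemeasurable
  have : IsFiniteMeasure ν₂ := by
    simp only [ν₂]; infer_instance
  have hle : ν₂ ≤ ν₁ := Measure.map_mono Measure.restrict_le_self hRm
  have hac : ν₂ ≪ ν₁ := Measure.absolutelyContinuous_of_le hle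
  let g : (J → Bool) → ℝ≥0∞ := fun y => min (ν₂.rnDeriv ν₁ y) 1
  have hg : Measurable g := (Measure.measurable_rnDeriv _ _).min measurable_const
  have hg1 : ν₂.rnDeriv ν₁ ≤ᵐ[ν₁] 1 := by
    exact Measure.rnDeriv_le_one_of_le hle
  have hge : ∀ C, MeasurableSet C → ∫⁻ y in C, g y ∂ν₁ = ν₂ C := by
    intro C hC
    have : ∫⁻ y in C, g y ∂ν₁ = ∫⁻ y in C, ν₂.rnDeriv ν₁ y ∂ν₁ := by
      refine lintegral_congr_ae (ae_restrict_of_ae ?_)
      filter_upwards [hg1] with y hy
      simp only [g]
      exact min_eq_left hy
    rw [this]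
    exact Measure.setLIntegral_rnDeriv hac C
  -- apply REAL
  have hm : MeasurableSpace.comap φ inferInstance ≤ (inferInstance : MeasurableSpace Ω) :=
    hφ.comap_le
  obtain ⟨b, hbB, hbm, hb⟩ := hR (MeasurableSpace.comap φ inferInstance) μ B hm hBm hBf (by
    intro b hbB hbm hb0
    have h1 := hBt b hbB hbm hb0 (Set.range (fun j : J => c j.1)) (by
      rintro G ⟨j, rfl⟩
      exact (hP j.1 j.2).2.1) (lt_of_le_of_lt mk_range_le (hI i))
    unfold Generates at h1
    push Not at h1
    obtain ⟨E, hEb, hEm, hE⟩ := h1
    refine ⟨E, hEb, hEm, fun G hG => hE G ?_⟩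
    have hle' : MeasurableSpace.comap φ inferInstance ≤
        MeasurableSpace.generateFrom (Set.range (fun j : J => c j.1)) := by
      have : @Measurable _ _ (MeasurableSpace.generateFrom (Set.range (fun j : J => c j.1))) _
          φ := by
        refine @measurable_pi_lambda _ _ _ (MeasurableSpace.generateFrom
          (Set.range (fun j : J => c j.1))) _ _ (fun j => ?_)
        refine @measurable_to_bool _ (MeasurableSpace.generateFrom
          (Set.range (fun j : J => c j.1))) _ ?_
        have : (fun x => φ x j) ⁻¹' {true} = c j.1 := by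
          ext x
          simp [φ, MAPS_code]
        rw [this]
        exact MeasurableSpace.measurableSet_generateFrom ⟨j, rfl⟩
      exact this.comap_le
    exact hle' G hG) (fun x => g (φ x)) (hg.comp (comap_measurable φ))
    (fun x => min_le_right _ _)
  refine ⟨b, hbB, hbm, fun C hC => ?_⟩
  have h2 := hb (φ ⁻¹' C) ⟨C, hC, rfl⟩
  have h3 : ∫⁻ x in φ ⁻¹' C ∩ B, g (φ x) ∂μ = μ B * ν₂ C := by
    rw [← Measure.restrict_restrict (hφ hC)]
    rw [← hge C hC]
    have h4 : ∫⁻ x in φ ⁻¹' C, g (φ x) ∂(μ.restrict B) =
        ∫⁻ y in C, g y ∂((μ.restrict B).map φ) := by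
      rw [setLIntegral_map hC hg hφ]
    rw [h4]
    have h5 : (μ.restrict B).map φ = μ B • ν₁ := hlaw
    rw [h5, Measure.restrict_smul, lintegral_smul_measure, smul_eq_mul]
  have h6 : ν₂ C = ν {x | (fun j : {j // j < i} => x j.1) ∈ C ∧ x i = true} := by
    simp only [ν₂]
    rw [Measure.map_apply hRm hC, Measure.restrict_apply (hRm hC)]
    rfl
  rw [← h6, ← h3, ← h2]
  rfl

/-- MAPS. -/
theorem st_MAPS (hR : ST_REAL.{u}) : ST_MAPS.{u} := by
  intro Ω _ μ κ B _ hB I hI ν _
  obtain ⟨_, _, hord⟩ := Cardinal.exists_ord_eq_type_lt I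
  have hlt : ∀ i : I, #{j // j < i} < κ := fun i =>
    lt_of_lt_of_le (Cardinal.mk_Iio_lt i hord) hI
  obtain ⟨b, hb⟩ := MAPS_fix (MAPS_P μ B ν) (fun i c c' s h hP => MAPS_P_congr μ B ν i c c' s h hP)
    (fun i c hP => MAPS_step hR μ κ B hB hlt ν i c hP) ∅
  obtain ⟨h1, h2⟩ := MAPS_law μ B hB.2.2.1 ν b (fun i : I => i) (fun _ _ h => h)
    (fun i => hb i)
  refine ⟨_, h1, ?_⟩
  rw [h2]
  congr 1
  exact Measure.map_id

end

end DualL1
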