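import Pool.Agent.Helper60.L1Full.Stmts

/-! REAL: realisation of conditional probabilities. -/

namespace DualL1

open MeasureTheory Cardinal
open scoped ENNReal Classical

universe u

section

lemma REAL_hahn {Ω : Type u} (m : MeasurableSpace Ω) [m0 : MeasurableSpace Ω] (hm : m ≤ m0)
    (α β : Measure Ω) [IsFiniteMeasure α] [IsFiniteMeasure β] :
    ∃ G, MeasurableSet[m] G ∧ (∀ t, MeasurableSet[m] t → t ⊆ G → α t ≤ β t) ∧
      (∀ t, MeasurableSet[m] t → t ⊆ Gᶜ → β t ≤ α t) := by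
  obtain ⟨G, hG, h1, h2⟩ := @hahn_decomposition Ω m (β.trim hm) (α.trim hm) _ _
  refine ⟨G, hG, fun t ht htG => ?_, fun t ht htG => ?_⟩
  · have := h1 t ht htG
    rwa [trim_measurableSet_eq hm ht, trim_measurableSet_eq hm ht] at this
  · have := h2 t ht htG
    rwa [trim_measurableSet_eq hm ht, trim_measurableSet_eq hm ht] at this

/-- maximal members of families closed under increasing unions -/
lemma REAL_max {Ω : Type u} [MeasurableSpace Ω] (μ : Measure Ω) (M : ℝ≥0∞) (hM : M ≠ ∞)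
    (𝓕 : Set (Set Ω)) (hne : 𝓕.Nonempty) (hb : ∀ b ∈ 𝓕, μ b ≤ M)
    (hU : ∀ f : ℕ → Set Ω, Monotone f → (∀ n, f n ∈ 𝓕) → ⋃ n, f n ∈ 𝓕) :
    ∃ b ∈ 𝓕, ∀ b' ∈ 𝓕, b ⊆ b' → μ b' ≤ μ b := by
  have hstep : ∀ (b : 𝓕) (n : ℕ), ∃ c : 𝓕, b.1 ⊆ c.1 ∧
      ∀ b' ∈ 𝓕, b.1 ⊆ b' → μ b' ≤ μ c.1 + (n + 1 : ℝ≥0∞)⁻¹ := by
    intro b n
    by_contra hcon
    push Not at hcon
    let S : ℝ≥0∞ := ⨆ c : {c : 𝓕 // b.1 ⊆ c.1}, μ c.1.1
    have hS : S ≤ M := iSup_le (fun c => hb _ c.1.2)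
    have hSt : S ≠ ∞ := ne_top_of_le_ne_top hM hS
    have hε : (n + 1 : ℝ≥0∞)⁻¹ ≠ 0 := by
      rw [ne_eq, ENNReal.inv_eq_zero]
      exact ENNReal.add_ne_top.2 ⟨ENNReal.natCast_ne_top n, ENNReal.one_ne_top⟩
    have : Nonempty {c : 𝓕 // b.1 ⊆ c.1} := ⟨⟨b, subset_rfl⟩⟩
    have h1 : S + (n + 1 : ℝ≥0∞)⁻¹ ≤ S := by
      simp only [S]
      rw [ENNReal.iSup_add]
      refine iSup_le (fun c => ?_)
      obtain ⟨b', hb', hbb', hlt⟩ := hcon c.1 c.2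
      exact hlt.le.trans (le_iSup (fun c : {c : 𝓕 // b.1 ⊆ c.1} => μ c.1.1) ⟨⟨b', hb'⟩, hbb'⟩)
    exact absurd h1 (not_le.2 (ENNReal.lt_add_right hSt hε))
  choose nxt hn1 hn2 using hstep
  obtain ⟨b0, hb0⟩ := hne
  let f : ℕ → 𝓕 := fun n => Nat.rec ⟨b0, hb0⟩ (fun n c => nxt c n) n
  have hf : ∀ n, f (n + 1) = nxt (f n) n := fun n => rfl
  have hmono : Monotone (fun n => (f n).1) := by
    refine monotone_nat_of_le_succ (fun n => ?_)
    simp only [hf]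
    exact hn1 (f n) n
  refine ⟨⋃ n, (f n).1, hU _ hmono (fun n => (f n).2), fun b' hb' hsub => ?_⟩
  have h1 : ∀ n : ℕ, μ b' ≤ μ (⋃ n, (f n).1) + (n + 1 : ℝ≥0∞)⁻¹ := by
    intro n
    refine (hn2 (f n) n b' hb' ((Set.subset_iUnion (fun n => (f n).1) n).trans hsub)).trans ?_
    gcongr
    exact Set.subset_iUnion (fun n => (f n).1) (n + 1)
  refine le_of_tendsto_of_tendsto tendsto_const_nhds (?_ : Filter.Tendsto
    (fun n : ℕ => μ (⋃ n, (f n).1) + (n + 1 : ℝ≥0∞)⁻¹) Filter.atTop _)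
    (Filter.Eventually.of_forall h1)
  have h2 : Filter.Tendsto (fun n : ℕ => ((n : ℝ≥0∞) + 1)⁻¹) Filter.atTop (nhds 0) := by
    have := (Filter.tendsto_add_atTop_iff_nat 1).2 ENNReal.tendsto_inv_nat_nhds_zero
    simpa using this
  have h3 := (tendsto_const_nhds (x := μ (⋃ n, (f n).1))).add h2
  simpa using h3

variable {Ω : Type u} (m : MeasurableSpace Ω) [m0 : MeasurableSpace Ω]
  (μ : Measure Ω)

lemma REAL_half (hm : m ≤ m0) (b : Set Ω) (hbm : MeasurableSet b) (hbf : μ b ≠ ∞)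
    (h : ∃ b' ⊆ b, MeasurableSet b' ∧
      ∀ G, MeasurableSet[m] G → μ (symmDiff b' (G ∩ b)) ≠ 0) :
    ∃ b' ⊆ b, MeasurableSet b' ∧ 0 < μ b' ∧
      ∀ G, MeasurableSet[m] G → 2 * μ (b' ∩ G) ≤ μ (b ∩ G) := by
  obtain ⟨c, hcb, hcm, hc⟩ := h
  have hcf : μ c ≠ ∞ := ne_top_of_le_ne_top hbf (measure_mono hcb)
  have : IsFiniteMeasure (μ.restrict b) := ⟨by
    rw [Measure.restrict_apply_univ]; exact lt_top_iff_ne_top.2 hbf⟩
  have : IsFiniteMeasure (μ.restrict c) := ⟨by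
    rw [Measure.restrict_apply_univ]; exact lt_top_iff_ne_top.2 hcf⟩
  have : IsFiniteMeasure ((2 : ℝ≥0∞) • μ.restrict c) := ⟨by
    rw [Measure.smul_apply, smul_eq_mul]
    exact ENNReal.mul_lt_top (by simp) (measure_lt_top _ _)⟩
  obtain ⟨G0, hG0, h1, h2⟩ := REAL_hahn m hm ((2 : ℝ≥0∞) • μ.restrict c) (μ.restrict b)
  have hG0' : MeasurableSet G0 := hm _ hG0
  have e1 : ∀ t, MeasurableSet[m] t → ((2 : ℝ≥0∞) • μ.restrict c) t = 2 * μ (c ∩ t) := by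
    intro t ht
    rw [Measure.smul_apply, smul_eq_mul, Measure.restrict_apply (hm _ ht), Set.inter_comm]
  have e2 : ∀ t, MeasurableSet[m] t → (μ.restrict b) t = μ (b ∩ t) := by
    intro t ht
    rw [Measure.restrict_apply (hm _ ht), Set.inter_comm]
  refine ⟨(c ∩ G0) ∪ ((b \ c) \ G0), ?_, ?_, ?_, ?_⟩
  · rintro x (hx | hx)
    · exact hcb hx.1
    · exact hx.1.1
  · exact (hcm.inter hG0').union ((hbm.diff hcm).diff hG0')
  · rw [pos_iff_ne_zero]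
    intro h0
    refine hc G0ᶜ hG0.compl ?_
    refine measure_mono_null ?_ h0
    intro x hx
    rcases hx with hx | hx
    · by_cases hxG : x ∈ G0
      · exact Or.inl ⟨hx.1, hxG⟩
      · exact absurd ⟨hxG, hcb hx.1⟩ hx.2
    · exact Or.inr ⟨⟨hx.1.2, hx.2⟩, hx.1.1⟩
  · intro G hG
    have hG' : MeasurableSet G := hm _ hG
    have h3 := h1 (G ∩ G0) (hG.inter hG0) Set.inter_subset_right
    have h4 := h2 (G ∩ G0ᶜ) (hG.inter hG0.compl) Set.inter_subset_right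
    rw [e1 _ (hG.inter hG0), e2 _ (hG.inter hG0)] at h3
    rw [e1 _ (hG.inter hG0.compl), e2 _ (hG.inter hG0.compl)] at h4
    have h5 : μ (((c ∩ G0) ∪ ((b \ c) \ G0)) ∩ G) ≤
        μ (c ∩ (G ∩ G0)) + μ ((b \ c) ∩ (G ∩ G0ᶜ)) := by
      refine (measure_mono ?_).trans (measure_union_le _ _)
      rintro x ⟨hx | hx, hxG⟩
      · exact Or.inl ⟨hx.1, hxG, hx.2⟩
      · exact Or.inr ⟨hx.1, hxG, hx.2⟩
    have h6 : μ (b ∩ G) = μ (b ∩ (G ∩ G0)) + μ (b ∩ (G ∩ G0ᶜ)) := by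
      rw [← measure_inter_add_sdiff (b ∩ G) hG0']
      congr 2
      · rw [Set.inter_assoc]
      · ext x; simp only [Set.mem_sdiff, Set.mem_inter_iff, Set.mem_compl_iff]; tauto
    have h7 : μ (b ∩ (G ∩ G0ᶜ)) = μ (c ∩ (G ∩ G0ᶜ)) + μ ((b \ c) ∩ (G ∩ G0ᶜ)) := by
      rw [← measure_inter_add_sdiff (b ∩ (G ∩ G0ᶜ)) hcm]
      congr 2
      · ext x; simp only [Set.mem_inter_iff, Set.mem_compl_iff]
        constructor
        · rintro ⟨⟨_, h⟩, hxc⟩; exact ⟨hxc, h⟩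
        · rintro ⟨hxc, h⟩; exact ⟨⟨hcb hxc, h⟩, hxc⟩
      · ext x; simp only [Set.mem_sdiff, Set.mem_inter_iff, Set.mem_compl_iff]; tauto
    have hfin : μ (c ∩ (G ∩ G0ᶜ)) ≠ ∞ :=
      ne_top_of_le_ne_top hcf (measure_mono Set.inter_subset_left)
    have h8 : μ ((b \ c) ∩ (G ∩ G0ᶜ)) ≤ μ (c ∩ (G ∩ G0ᶜ)) := by
      rw [h7, two_mul] at h4
      exact (ENNReal.add_le_add_iff_left hfin).1 h4
    calc 2 * μ (((c ∩ G0) ∪ ((b \ c) \ G0)) ∩ G)
        ≤ 2 * (μ (c ∩ (G ∩ G0)) + μ ((b \ c) ∩ (G ∩ G0ᶜ))) := by gcongr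
      _ = 2 * μ (c ∩ (G ∩ G0)) + (μ ((b \ c) ∩ (G ∩ G0ᶜ)) + μ ((b \ c) ∩ (G ∩ G0ᶜ))) := by
          rw [mul_add, two_mul (μ ((b \ c) ∩ (G ∩ G0ᶜ)))]
      _ ≤ μ (b ∩ (G ∩ G0)) + (μ (c ∩ (G ∩ G0ᶜ)) + μ ((b \ c) ∩ (G ∩ G0ᶜ))) := by
          gcongr
      _ = μ (b ∩ G) := by rw [h6, h7]

lemma REAL_pow (hm : m ≤ m0) (B : Set Ω) (hBf : μ B ≠ ∞)
    (h : ∀ b ⊆ B, MeasurableSet b → 0 < μ b → ∃ b' ⊆ b, MeasurableSet b' ∧
      ∀ G, MeasurableSet[m] G → μ (symmDiff b' (G ∩ b)) ≠ 0) (n : ℕ) :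
    ∀ b ⊆ B, MeasurableSet b → 0 < μ b →
    ∃ b' ⊆ b, MeasurableSet b' ∧ 0 < μ b' ∧
      ∀ G, MeasurableSet[m] G → 2 ^ n * μ (b' ∩ G) ≤ μ (b ∩ G) := by
  induction n with
  | zero =>
    intro b _ hbm hb0
    exact ⟨b, subset_rfl, hbm, hb0, fun G _ => by simp⟩
  | succ n ih =>
    intro b hbB hbm hb0
    obtain ⟨c, hcb, hcm, hc0, hc⟩ := ih b hbB hbm hb0
    obtain ⟨d, hdc, hdm, hd0, hd⟩ := REAL_half m μ hm c hcm
      (ne_top_of_le_ne_top hBf (measure_mono (hcb.trans hbB))) (h c (hcb.trans hbB) hcm hc0)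
    refine ⟨d, hdc.trans hcb, hdm, hd0, fun G hG => ?_⟩
    calc 2 ^ (n + 1) * μ (d ∩ G) = 2 ^ n * (2 * μ (d ∩ G)) := by rw [pow_succ, mul_assoc]
      _ ≤ 2 ^ n * μ (c ∩ G) := by gcongr; exact hd G hG
      _ ≤ μ (b ∩ G) := hc G hG

end

/-- REAL. -/
theorem st_REAL : ST_REAL.{u} := by
  intro Ω m m0 μ B hm hBm hBf h g hg hg1
  have hg0 : Measurable g := hg.mono hm le_rfl
  -- the target measure
  let ρ : Measure Ω := (μ.restrict B).withDensity g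
  have hρ : ∀ t, MeasurableSet[m] t → ρ t = ∫⁻ x in t ∩ B, g x ∂μ := by
    intro t ht
    simp only [ρ]
    rw [withDensity_apply _ (hm _ ht), Measure.restrict_restrict (hm _ ht)]
  have hρB : ∀ t, MeasurableSet[m] t → ρ t ≤ μ (B ∩ t) := by
    intro t ht
    rw [hρ t ht, Set.inter_comm t B]
    calc ∫⁻ x in B ∩ t, g x ∂μ ≤ ∫⁻ x in B ∩ t, 1 ∂μ := lintegral_mono (fun x => hg1 x)
      _ = μ (B ∩ t) := by simp
  have hρf : IsFiniteMeasure ρ := ⟨by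
    refine lt_of_le_of_lt (hρB Set.univ MeasurableSet.univ) ?_
    rw [Set.inter_univ]
    exact lt_top_iff_ne_top.2 hBf⟩
  let 𝓕 : Set (Set Ω) := {b | b ⊆ B ∧ MeasurableSet b ∧
    ∀ G, MeasurableSet[m] G → μ (b ∩ G) ≤ ρ G}
  obtain ⟨b, hbF, hmax⟩ := REAL_max μ (μ B) hBf 𝓕 ⟨∅, Set.empty_subset _, MeasurableSet.empty,
    fun G _ => by simp⟩ (fun b hb => measure_mono hb.1) (by
      intro f hf hfF
      refine ⟨Set.iUnion_subset (fun n => (hfF n).1),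
        MeasurableSet.iUnion (fun n => (hfF n).2.1), fun G hG => ?_⟩
      rw [Set.iUnion_inter]
      have hmono : Monotone (fun n => f n ∩ G) := fun a b hab =>
        Set.inter_subset_inter_left _ (hf hab)
      rw [hmono.measure_iUnion]
      exact iSup_le (fun n => (hfF n).2.2 G hG))
  obtain ⟨hbB, hbm, hbρ⟩ := hbF
  have hbf : μ b ≠ ∞ := ne_top_of_le_ne_top hBf (measure_mono hbB)
  -- the total masses agree
  have htot : ρ Set.univ ≤ μ b := by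
    by_contra hlt
    rw [not_le] at hlt
    have hd : ρ Set.univ - μ b ≠ 0 := (tsub_pos_of_lt hlt).ne'
    obtain ⟨N, hN⟩ := ENNReal.exists_nat_mul_gt hd hBf
    have hN' : μ B < 2 ^ N * (ρ Set.univ - μ b) := by
      refine hN.trans_le ?_
      gcongr
      exact_mod_cast (Nat.lt_two_pow_self (n := N)).le
    have hpf : (2 : ℝ≥0∞) ^ N ≠ ∞ := ENNReal.pow_ne_top (by simp)
    have hp0 : (2 : ℝ≥0∞) ^ N ≠ 0 := pow_ne_zero _ (by simp)
    have hN2 : 2 ^ N * μ b + μ B < 2 ^ N * ρ Set.univ := by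
      rw [ENNReal.mul_sub (fun _ _ => hpf)] at hN'
      rw [add_comm]
      exact lt_tsub_iff_right.1 hN'
    have i1 : IsFiniteMeasure (μ.restrict b) := ⟨by
      rw [Measure.restrict_apply_univ]; exact lt_top_iff_ne_top.2 hbf⟩
    have i2 : IsFiniteMeasure (μ.restrict B) := ⟨by
      rw [Measure.restrict_apply_univ]; exact lt_top_iff_ne_top.2 hBf⟩
    have i3 : IsFiniteMeasure ((2 : ℝ≥0∞) ^ N • μ.restrict b) := ⟨by
      rw [Measure.smul_apply, smul_eq_mul]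
      exact ENNReal.mul_lt_top (lt_top_iff_ne_top.2 hpf) (measure_lt_top _ _)⟩
    have i4 : IsFiniteMeasure ((2 : ℝ≥0∞) ^ N • ρ) := ⟨by
      rw [Measure.smul_apply, smul_eq_mul]
      exact ENNReal.mul_lt_top (lt_top_iff_ne_top.2 hpf) (measure_lt_top _ _)⟩
    obtain ⟨G1, hG1, h1, h2⟩ := REAL_hahn m hm
      (μ.restrict B + (2 : ℝ≥0∞) ^ N • μ.restrict b) ((2 : ℝ≥0∞) ^ N • ρ)
    have hG1' : MeasurableSet G1 := hm _ hG1
    have e1 : ∀ t, MeasurableSet[m] t → (μ.restrict B + (2 : ℝ≥0∞) ^ N • μ.restrict b) t =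
        μ (B ∩ t) + 2 ^ N * μ (b ∩ t) := by
      intro t ht
      rw [Measure.add_apply, Measure.smul_apply, smul_eq_mul, Measure.restrict_apply (hm _ ht),
        Measure.restrict_apply (hm _ ht), Set.inter_comm, Set.inter_comm t b]
    have e2 : ∀ t, ((2 : ℝ≥0∞) ^ N • ρ) t = 2 ^ N * ρ t := by
      intro t
      rw [Measure.smul_apply, smul_eq_mul]
    have hpos : 0 < μ ((B \ b) ∩ G1) := by
      rw [pos_iff_ne_zero]
      intro h0
      have h3 := h2 G1ᶜ hG1.compl subset_rfl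
      rw [e1 _ hG1.compl, e2] at h3
      have h4 : ρ G1 ≤ μ (b ∩ G1) := by
        refine (hρB G1 hG1).trans ?_
        calc μ (B ∩ G1) ≤ μ ((b ∩ G1) ∪ ((B \ b) ∩ G1)) := by
              refine measure_mono ?_
              intro x hx
              by_cases hxb : x ∈ b
              · exact Or.inl ⟨hxb, hx.2⟩
              · exact Or.inr ⟨⟨hx.1, hxb⟩, hx.2⟩
          _ ≤ μ (b ∩ G1) + μ ((B \ b) ∩ G1) := measure_union_le _ _
          _ = μ (b ∩ G1) := by rw [h0, add_zero]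
      have h5 : 2 ^ N * ρ Set.univ ≤ 2 ^ N * μ b + μ B := by
        calc 2 ^ N * ρ Set.univ = 2 ^ N * ρ G1 + 2 ^ N * ρ G1ᶜ := by
              rw [← mul_add, measure_add_measure_compl hG1']
          _ ≤ 2 ^ N * μ (b ∩ G1) + (μ (B ∩ G1ᶜ) + 2 ^ N * μ (b ∩ G1ᶜ)) := by
              gcongr
          _ = 2 ^ N * (μ (b ∩ G1) + μ (b ∩ G1ᶜ)) + μ (B ∩ G1ᶜ) := by ring
          _ = 2 ^ N * μ b + μ (B ∩ G1ᶜ) := by
              have : μ (b ∩ G1) + μ (b ∩ G1ᶜ) = μ b := measure_inter_add_sdiff b hG1'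
              rw [this]
          _ ≤ 2 ^ N * μ b + μ B := by
              gcongr
              exact Set.inter_subset_left
      exact absurd h5 (not_le.2 hN2)
    obtain ⟨c, hcsub, hcm, hc0, hc⟩ := REAL_pow m μ hm B hBf h N ((B \ b) ∩ G1)
      (fun x hx => hx.1.1) ((hBm.diff hbm).inter hG1') hpos
    have hcb : Disjoint b c := by
      rw [Set.disjoint_left]
      intro x hxb hxc
      exact (hcsub hxc).1.2 hxb
    have hunion : b ∪ c ∈ 𝓕 := by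
      refine ⟨Set.union_subset hbB (fun x hx => (hcsub hx).1.1), hbm.union hcm, fun G hG => ?_⟩
      have hG' : MeasurableSet G := hm _ hG
      have h3 := h1 (G ∩ G1) (hG.inter hG1) Set.inter_subset_right
      rw [e1 _ (hG.inter hG1), e2] at h3
      have h4 := hc (G ∩ G1) (hG.inter hG1)
      have h5 := hbρ (G ∩ G1ᶜ) (hG.inter hG1.compl)
      have key : 2 ^ N * μ ((b ∪ c) ∩ G) ≤ 2 ^ N * ρ G := by
        calc 2 ^ N * μ ((b ∪ c) ∩ G)
            ≤ 2 ^ N * (μ (b ∩ (G ∩ G1ᶜ)) + (μ (b ∩ (G ∩ G1)) + μ (c ∩ (G ∩ G1)))) := by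
              gcongr
              refine (measure_mono (?_ : (b ∪ c) ∩ G ⊆
                (b ∩ (G ∩ G1ᶜ)) ∪ ((b ∩ (G ∩ G1)) ∪ (c ∩ (G ∩ G1))))).trans
                ((measure_union_le _ _).trans (add_le_add_right (measure_union_le _ _) _))
              rintro x ⟨hx | hx, hxG⟩
              · by_cases hx1 : x ∈ G1
                · exact Or.inr (Or.inl ⟨hx, hxG, hx1⟩)
                · exact Or.inl ⟨hx, hxG, hx1⟩
              · exact Or.inr (Or.inr ⟨hx, hxG, (hcsub hx).2⟩)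
          _ = 2 ^ N * μ (b ∩ (G ∩ G1ᶜ)) + (2 ^ N * μ (c ∩ (G ∩ G1)) +
                2 ^ N * μ (b ∩ (G ∩ G1))) := by ring
          _ ≤ 2 ^ N * ρ (G ∩ G1ᶜ) + (μ (B ∩ (G ∩ G1)) + 2 ^ N * μ (b ∩ (G ∩ G1))) := by
              gcongr
              refine h4.trans (measure_mono ?_)
              intro x hx
              exact ⟨hx.1.1.1, hx.2⟩
          _ ≤ 2 ^ N * ρ (G ∩ G1ᶜ) + 2 ^ N * ρ (G ∩ G1) := by gcongr
          _ = 2 ^ N * (ρ (G ∩ G1) + ρ (G ∩ G1ᶜ)) := by ring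
          _ = 2 ^ N * ρ G := by
              have : ρ (G ∩ G1) + ρ (G ∩ G1ᶜ) = ρ G := measure_inter_add_sdiff G hG1'
              rw [this]
      exact (ENNReal.mul_le_mul_iff_right hp0 hpf).1 key
    have h6 := hmax (b ∪ c) hunion Set.subset_union_left
    rw [measure_union hcb hcm] at h6
    exact absurd h6 (not_le.2 (ENNReal.lt_add_right hbf hc0.ne'))
  refine ⟨b, hbB, hbm, fun G hG => ?_⟩
  have hG' : MeasurableSet G := hm _ hG
  rw [← hρ G hG]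
  refine le_antisymm (hbρ G hG) ?_
  have h3 := hbρ Gᶜ hG.compl
  have h4 : ρ G + ρ Gᶜ ≤ μ (b ∩ G) + μ (b ∩ Gᶜ) := by
    rw [measure_add_measure_compl hG']
    refine htot.trans (le_of_eq ?_)
    exact (measure_inter_add_sdiff b hG').symm
  have h5 : ρ G + ρ Gᶜ ≤ μ (b ∩ G) + ρ Gᶜ := h4.trans (by gcongr)
  exact (ENNReal.add_le_add_iff_right (measure_ne_top ρ _)).1 h5

end DualL1
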